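import Mathlib

/-!
The inclusion matrix of the `N`-subsets and the `(N + A)`-subsets of a set with at least `2 N + A`
elements has full rank (Gottlieb): a function on the `N`-subsets whose sums over the subsets of all
`(N + A)`-sets vanish is zero.
-/

set_option autoImplicit false

namespace Pool.Agent.Lib.MP_2e09cc_al

open Finset

variable {α : Type*} [DecidableEq α] {K : Type*} [Field K] [CharZero K]

/-- The sum of `f` over the `N`-subsets of `Z`. -/
def hsum (N : ℕ) (f : Finset α → K) (Z : Finset α) : K := ∑ B ∈ Z.powersetCard N, f B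

theorem hsum_up (N : ℕ) (f : Finset α → K) (S : Finset α) (k : ℕ) (hk : N ≤ k)
    (H : ∀ Z ⊆ S, Z.card = k → hsum N f Z = 0) :
    ∀ Z ⊆ S, Z.card = k + 1 → hsum N f Z = 0 := by
  intro Z hZ hc
  have h1 : ∑ z ∈ Z, hsum N f (Z.erase z) = ∑ B ∈ Z.powersetCard N, ∑ z ∈ Z \ B, f B := by
    unfold hsum
    apply Finset.sum_comm'
    intro z B
    simp only [mem_powersetCard, mem_sdiff]
    constructor
    · rintro ⟨hz, hB, hcB⟩
      exact ⟨⟨hz, fun h => (Finset.mem_erase.mp (hB h)).1 rfl⟩, hB.trans (erase_subset _ _), hcB⟩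
    · rintro ⟨⟨hz, hzB⟩, hB, hcB⟩
      exact ⟨hz, fun b hb => mem_erase.mpr ⟨fun e => hzB (e ▸ hb), hB hb⟩, hcB⟩
  have h2 : ∑ z ∈ Z, hsum N f (Z.erase z) = 0 := by
    apply Finset.sum_eq_zero
    intro z hz
    apply H _ ((erase_subset _ _).trans hZ)
    rw [card_erase_of_mem hz, hc]; rfl
  have h3 : ∑ B ∈ Z.powersetCard N, ∑ z ∈ Z \ B, f B = ((k + 1 - N : ℕ) : K) * hsum N f Z := by
    unfold hsum
    rw [Finset.mul_sum]
    apply Finset.sum_congr rfl
    intro B hB
    rw [mem_powersetCard] at hB
    rw [Finset.sum_const, card_sdiff_of_subset hB.1, hc, hB.2, nsmul_eq_mul]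
  rw [h1, h3] at h2
  rcases mul_eq_zero.mp h2 with h | h
  · exfalso
    have : k + 1 - N = 0 := by exact_mod_cast h
    omega
  · exact h

theorem hsum_ge (N : ℕ) (f : Finset α → K) (S : Finset α) (k : ℕ) (hk : N ≤ k)
    (H : ∀ Z ⊆ S, Z.card = k → hsum N f Z = 0) :
    ∀ Z ⊆ S, k ≤ Z.card → hsum N f Z = 0 := by
  have key : ∀ j : ℕ, ∀ Z ⊆ S, Z.card = k + j → hsum N f Z = 0 := by
    intro j
    induction j with
    | zero => simpa using H
    | succ j ih =>
      have := hsum_up N f S (k + j) (by omega) ih
      intro Z hZ hc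
      exact this Z hZ (by omega)
  intro Z hZ hc
  exact key (Z.card - k) Z hZ (by omega)

theorem gott (N A : ℕ) (f : Finset α → K) (S : Finset α)
    (H : ∀ Z ⊆ S, Z.card = N + A → hsum N f Z = 0) (hS : 2 * N + A ≤ S.card) :
    ∀ B ⊆ S, B.card = N → f B = 0 := by
  have H' := hsum_ge N f S (N + A) (by omega) H
  have key : ∀ P T : Finset α, Disjoint P T → P ∪ T ⊆ S → N + A ≤ T.card →
      ∑ B ∈ (P ∪ T).powersetCard N with P ⊆ B, f B = 0 := by
    intro P
    induction P using Finset.induction_on with
    | empty =>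
      intro T _ hT hc
      simp only [empty_subset, Finset.filter_true, empty_union]
      exact H' T (by simpa using hT) hc
    | insert p P hp ih =>
      intro T hd hT hc
      have hpT : p ∉ T := by
        intro h
        exact (Finset.disjoint_left.mp hd) (mem_insert_self p P) h
      have hPT : Disjoint P T := Finset.disjoint_of_subset_left (subset_insert _ _) hd
      have hU : P ∪ insert p T = insert p P ∪ T := by
        ext a; simp only [mem_union, mem_insert]; tauto
      have e1 := ih (insert p T) (by
        rw [Finset.disjoint_insert_right]; exact ⟨hp, hPT⟩) (by rw [hU]; exact hT)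
        (by rw [card_insert_of_notMem hpT]; omega)
      have e2 := ih T hPT ((union_subset_union_left (subset_insert _ _)).trans hT) hc
      rw [hU] at e1
      rw [← Finset.sum_filter_add_sum_filter_not _ (fun B => p ∈ B)] at e1
      have e3 : ∑ B ∈ ((insert p P ∪ T).powersetCard N).filter (fun B => P ⊆ B) with p ∉ B, f B
          = ∑ B ∈ (P ∪ T).powersetCard N with P ⊆ B, f B := by
        apply Finset.sum_congr _ (fun _ _ => rfl)
        ext B
        simp only [mem_filter, mem_powersetCard]
        constructor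
        · rintro ⟨⟨⟨hB, hc⟩, hP⟩, hpB⟩
          refine ⟨⟨fun b hb => ?_, hc⟩, hP⟩
          have := hB hb
          rw [mem_union, mem_insert] at this
          rw [mem_union]
          rcases this with (h | h) | h
          · exact absurd (h ▸ hb) hpB
          · exact Or.inl h
          · exact Or.inr h
        · rintro ⟨⟨hB, hc⟩, hP⟩
          refine ⟨⟨⟨hB.trans (union_subset_union_left (subset_insert _ _)), hc⟩, hP⟩, fun h => ?_⟩
          rcases mem_union.mp (hB h) with h' | h'
          · exact hp h'
          · exact hpT h'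
      have e4 : ∑ B ∈ ((insert p P ∪ T).powersetCard N).filter (fun B => P ⊆ B) with p ∈ B, f B
          = ∑ B ∈ (insert p P ∪ T).powersetCard N with insert p P ⊆ B, f B := by
        apply Finset.sum_congr _ (fun _ _ => rfl)
        ext B
        simp only [mem_filter, mem_powersetCard, insert_subset_iff]
        tauto
      rw [e3, e2, add_zero, e4] at e1
      exact e1
  intro B hB hc
  have h1 := key B (S \ B) disjoint_sdiff (by rw [union_sdiff_of_subset hB])
    (by rw [card_sdiff_of_subset hB]; omega)
  rw [union_sdiff_of_subset hB] at h1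
  have h2 : (S.powersetCard N).filter (fun C => B ⊆ C) = {B} := by
    ext C
    simp only [mem_filter, mem_powersetCard, mem_singleton]
    constructor
    · rintro ⟨⟨_, hcC⟩, hBC⟩
      exact (eq_of_subset_of_card_le hBC (by omega)).symm
    · rintro rfl
      exact ⟨⟨hB, hc⟩, Subset.refl _⟩
  rw [h2, Finset.sum_singleton] at h1
  exact h1

end Pool.Agent.Lib.MP_2e09cc_al
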