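import Mathlib
import Pool.Agent.Lib.MP_2e09cc_al.Gott

/-!
Symmetrisation over a set of letters: a function `φ` on the maps `L → Fin n` whose support has
prescribed numbers of letters in each fibre is zero if its sums over all maps which agree with a given
map off a set `Z` are zero, for all `Z` with prescribed numbers `m i` of letters of `Z` in the fibres.
-/

set_option autoImplicit false
set_option linter.unusedSectionVars false

namespace Pool.Agent.Lib.MP_2e09cc_al

open Finset

variable {L : Type*} [Fintype L] [DecidableEq L] {n : ℕ} {K : Type*} [Field K] [CharZero K]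

/-- The number of elements of `T` where `c` has the value `i`. -/
def cnt (T : Finset L) (c : L → Fin n) (i : Fin n) : ℕ := (T.filter (fun a => c a = i)).card

/-- The sum of `φ` over the maps which agree with `c` off `Z`. -/
def agr (φ : (L → Fin n) → K) (Z : Finset L) (c : L → Fin n) : K :=
  ∑ x : L → Fin n with ∀ a, a ∉ Z → x a = c a, φ x

theorem cnt_congr {T : Finset L} {c c' : L → Fin n} (h : ∀ a ∈ T, c a = c' a) (i : Fin n) :
    cnt T c i = cnt T c' i := by
  unfold cnt
  congr 1
  apply Finset.filter_congr
  intro a ha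
  rw [h a ha]

theorem cnt_union {S T : Finset L} (h : Disjoint S T) (c : L → Fin n) (i : Fin n) :
    cnt (S ∪ T) c i = cnt S c i + cnt T c i := by
  unfold cnt
  rw [Finset.filter_union, Finset.card_union_of_disjoint]
  exact Finset.disjoint_filter_filter h

theorem cnt_sdiff {S T : Finset L} (h : S ⊆ T) (c : L → Fin n) (i : Fin n) :
    cnt (T \ S) c i + cnt S c i = cnt T c i := by
  rw [← cnt_union (Finset.sdiff_disjoint), Finset.sdiff_union_of_subset h]

theorem sum_cnt (T : Finset L) (c : L → Fin n) : ∑ i, cnt T c i = T.card := by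
  unfold cnt
  exact (Finset.card_eq_sum_card_fiberwise (fun a _ => Finset.mem_univ (c a))).symm

theorem agr_congr (φ : (L → Fin n) → K) (Z : Finset L) {c c' : L → Fin n}
    (h : ∀ a, a ∉ Z → c a = c' a) : agr φ Z c = agr φ Z c' := by
  unfold agr
  apply Finset.sum_congr _ (fun _ _ => rfl)
  apply Finset.filter_congr
  intro x _
  constructor
  · intro hx a ha; rw [hx a ha, h a ha]
  · intro hx a ha; rw [hx a ha, h a ha]

/-- The sums over the sets `Z` with `m j` letters of the fibres over `j ∈ J` vanish. -/
def Hyp (φ : (L → Fin n) → K) (T : Finset L) (d m : Fin n → ℕ) (J : Finset (Fin n)) : Prop :=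
  ∀ Z ⊆ T, ∀ c : L → Fin n, Z.card = ∑ j ∈ J, m j →
    (∀ j, cnt (T \ Z) c j + (if j ∈ J then m j else 0) = d j) → agr φ Z c = 0

theorem Jstep (φ : (L → Fin n) → K) (T : Finset L) (d m : Fin n → ℕ)
    (hsupp : ∀ x, φ x ≠ 0 → ∀ i, cnt T x i = d i) (J : Finset (Fin n)) (i : Fin n) (hi : i ∉ J)
    (hd : ∑ j ∈ J, m j + m i ≤ d i) (H : Hyp φ T d m (insert i J)) : Hyp φ T d m J := by
  classical
  intro Z₁ hZ₁ c₁ hc₁ hcnt
  set N := ∑ j ∈ J, m j with hN
  set F := (T \ Z₁).filter (fun a => c₁ a = i) with hF
  set S := Z₁ ∪ F with hS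
  set c : L → Fin n := fun a => if a ∈ S then i else c₁ a with hc
  have hFT : F ⊆ T \ Z₁ := Finset.filter_subset _ _
  have hST : S ⊆ T := Finset.union_subset hZ₁ (hFT.trans Finset.sdiff_subset)
  have hdisj : Disjoint Z₁ F := by
    rw [Finset.disjoint_left]
    intro a ha ha'
    exact (Finset.mem_sdiff.mp (hFT ha')).2 ha
  have hFc : F.card = d i := by
    have := hcnt i
    rw [if_neg hi, add_zero] at this
    exact this
  have hSc : S.card = N + d i := by
    rw [hS, Finset.card_union_of_disjoint hdisj, hc₁, hFc]
  have hcS : ∀ a ∈ S, c a = i := fun a ha => by simp [hc, ha]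
  have hcn : ∀ a, a ∉ S → c a = c₁ a := fun a ha => by simp [hc, ha]
  have hci : ∀ a ∈ T, c a = i ↔ a ∈ S := by
    intro a ha
    constructor
    · intro h
      by_contra hna
      rw [hcn a hna] at h
      apply hna
      rw [hS, Finset.mem_union]
      by_cases haZ : a ∈ Z₁
      · exact Or.inl haZ
      · exact Or.inr (Finset.mem_filter.mpr ⟨Finset.mem_sdiff.mpr ⟨ha, haZ⟩, h⟩)
    · exact hcS a
  -- the sum over the `N`-subsets of `Z` is `agr φ Z c`
  have hA : ∀ Z ⊆ S, Z.card = N + m i → hsum N (fun B => agr φ B c) Z = agr φ Z c := by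
    intro Z hZ hZc
    unfold hsum agr
    have h1 : ∑ B ∈ Z.powersetCard N, ∑ x : L → Fin n with ∀ a, a ∉ B → x a = c a, φ x
        = ∑ x : L → Fin n with ∀ a, a ∉ Z → x a = c a,
            ∑ B ∈ Z.powersetCard N with ∀ a, a ∉ B → x a = c a, φ x := by
      apply Finset.sum_comm'
      intro B x
      simp only [mem_powersetCard, mem_filter, mem_univ, true_and]
      constructor
      · rintro ⟨⟨hB, hBc⟩, hx⟩
        exact ⟨⟨⟨hB, hBc⟩, hx⟩, fun a ha => hx a (fun h => ha (hB h))⟩
      · rintro ⟨⟨⟨hB, hBc⟩, hx⟩, _⟩
        exact ⟨⟨hB, hBc⟩, hx⟩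
    rw [h1]
    apply Finset.sum_congr rfl
    intro x hx
    simp only [mem_filter, mem_univ, true_and] at hx
    by_cases h0 : φ x = 0
    · simp [h0]
    have hxc := hsupp x h0 i
    have hZT : Z ⊆ T := hZ.trans hST
    have e1 : cnt (T \ Z) x i = (S \ Z).card := by
      unfold cnt
      congr 1
      ext a
      simp only [mem_filter, mem_sdiff]
      constructor
      · rintro ⟨⟨haT, haZ⟩, hxa⟩
        rw [hx a haZ] at hxa
        exact ⟨(hci a haT).mp hxa, haZ⟩
      · rintro ⟨haS, haZ⟩
        refine ⟨⟨hST haS, haZ⟩, ?_⟩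
        rw [hx a haZ]
        exact hcS a haS
    have e2 : (S \ Z).card = d i - m i := by
      rw [Finset.card_sdiff_of_subset hZ, hSc, hZc]; omega
    have e3 := cnt_sdiff hZT x i
    have e4 : cnt Z x i = m i := by omega
    have e5 : (Z.filter (fun a => ¬ x a = i)).card = N := by
      have := Finset.card_filter_add_card_filter_not (s := Z) (fun a => x a = i)
      unfold cnt at e4
      omega
    have e6 : (Z.powersetCard N).filter (fun B => ∀ a, a ∉ B → x a = c a)
        = {Z.filter (fun a => ¬ x a = i)} := by
      ext B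
      simp only [mem_filter, mem_powersetCard, mem_singleton]
      constructor
      · rintro ⟨⟨hB, hBc⟩, hxB⟩
        have hsub : Z.filter (fun a => ¬ x a = i) ⊆ B := by
          intro a ha
          rw [mem_filter] at ha
          by_contra hna
          apply ha.2
          rw [hxB a hna]
          exact hcS a (hZ ha.1)
        exact (Finset.eq_of_subset_of_card_le hsub (by omega)).symm
      · rintro rfl
        refine ⟨⟨Finset.filter_subset _ _, e5⟩, ?_⟩
        intro a ha
        by_cases haZ : a ∈ Z
        · have : x a = i := by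
            by_contra hne
            exact ha (mem_filter.mpr ⟨haZ, hne⟩)
          rw [this, hcS a (hZ haZ)]
        · exact hx a haZ
    rw [e6, Finset.sum_singleton]
  have hB : ∀ Z ⊆ S, Z.card = N + m i → agr φ Z c = 0 := by
    intro Z hZ hZc
    apply H Z (hZ.trans hST) c
    · rw [Finset.sum_insert hi, hZc, add_comm]
    · intro j
      by_cases hj : j = i
      · subst hj
        rw [if_pos (Finset.mem_insert_self _ _)]
        have e1 : cnt (T \ Z) c j = (S \ Z).card := by
          unfold cnt
          congr 1
          ext a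
          simp only [mem_filter, mem_sdiff]
          constructor
          · rintro ⟨⟨haT, haZ⟩, hxa⟩
            exact ⟨(hci a haT).mp hxa, haZ⟩
          · rintro ⟨haS, haZ⟩
            exact ⟨⟨hST haS, haZ⟩, hcS a haS⟩
        rw [e1, Finset.card_sdiff_of_subset hZ, hSc, hZc]; omega
      · have e1 : cnt (T \ Z) c j = cnt (T \ Z₁) c₁ j := by
          unfold cnt
          congr 1
          ext a
          simp only [mem_filter, mem_sdiff]
          constructor
          · rintro ⟨⟨haT, haZ⟩, hxa⟩
            have haS : a ∉ S := fun h => hj (by rw [← hxa, hcS a h])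
            refine ⟨⟨haT, fun h => haS (Finset.mem_union_left _ h)⟩, ?_⟩
            rw [← hcn a haS]; exact hxa
          · rintro ⟨⟨haT, haZ⟩, hxa⟩
            have haS : a ∉ S := by
              intro h
              rcases Finset.mem_union.mp h with h | h
              · exact haZ h
              · exact hj (by rw [← hxa, (Finset.mem_filter.mp h).2])
            refine ⟨⟨haT, fun h => haS (hZ h)⟩, ?_⟩
            rw [hcn a haS]; exact hxa
        rw [e1]
        have : (j ∈ insert i J) ↔ j ∈ J := by simp [hj]
        simp only [this]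
        exact hcnt j
  have hG := gott N (m i) (fun B => agr φ B c) S (fun Z hZ hZc => by
    rw [hA Z hZ hZc]; exact hB Z hZ hZc) (by rw [hSc]; omega) Z₁ Finset.subset_union_left hc₁
  rw [← hG]
  apply agr_congr
  intro a ha
  by_cases haS : a ∈ S
  · rw [hcS a haS]
    rcases Finset.mem_union.mp haS with h | h
    · exact absurd h ha
    · exact (Finset.mem_filter.mp h).2
  · exact (hcn a haS).symm

theorem Jlem (φ : (L → Fin n) → K) (T : Finset L) (d m : Fin n → ℕ)
    (hsupp : ∀ x, φ x ≠ 0 → ∀ i, cnt T x i = d i)
    (hd : ∀ i : Fin n, ∑ j with j ≤ i, m j ≤ d i)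
    (H : ∀ Z ⊆ T, ∀ c : L → Fin n, Z.card = ∑ j, m j →
      (∀ j, cnt (T \ Z) c j + m j = d j) → agr φ Z c = 0) :
    ∀ x, φ x = 0 := by
  classical
  have key : ∀ k : ℕ, k ≤ n → Hyp φ T d m (Finset.univ.filter (fun j : Fin n => j.val < n - k)) := by
    intro k
    induction k with
    | zero =>
      intro _
      have : (Finset.univ.filter (fun j : Fin n => j.val < n - 0)) = Finset.univ := by
        ext j; simp
      rw [this]
      intro Z hZ c h1 h2
      exact H Z hZ c h1 (fun j => by simpa using h2 j)
    | succ k ih =>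
      intro hk
      have ih' := ih (by omega)
      have hlt : n - (k + 1) < n := by omega
      set i : Fin n := ⟨n - (k + 1), hlt⟩ with hi
      have e1 : (Finset.univ.filter (fun j : Fin n => j.val < n - k))
          = insert i (Finset.univ.filter (fun j : Fin n => j.val < n - (k + 1))) := by
        ext j
        simp only [mem_filter, mem_univ, true_and, mem_insert, Fin.ext_iff, hi]
        omega
      rw [e1] at ih'
      refine Jstep φ T d m hsupp _ i (by simp [hi]) ?_ ih'
      have e2 : (Finset.univ.filter (fun j : Fin n => j ≤ i))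
          = insert i (Finset.univ.filter (fun j : Fin n => j.val < n - (k + 1))) := by
        ext j
        simp only [mem_filter, mem_univ, true_and, mem_insert, Fin.ext_iff, Fin.le_def, hi]
        omega
      have := hd i
      rw [e2, Finset.sum_insert (by simp [hi])] at this
      omega
  intro x
  by_contra hx
  apply hx
  have h0 := key n le_rfl ∅ (Finset.empty_subset _) x (by simp) (by
    intro j
    simpa using hsupp x hx j)
  unfold agr at h0
  have e : (Finset.univ.filter (fun y : L → Fin n => ∀ a, a ∉ (∅ : Finset L) → y a = x a)) = {x} := by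
    ext y
    simp only [mem_filter, mem_univ, true_and, mem_singleton, Finset.notMem_empty,
      not_false_eq_true, true_implies]
    exact ⟨fun h => funext h, fun h a => by rw [h]⟩
  rw [e, Finset.sum_singleton] at h0
  exact h0

end Pool.Agent.Lib.MP_2e09cc_al
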