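import Mathlib
import Pool.Agent.Lib.MP_2e09cc_al.JLem

/-!
The number of maps `y : L → Fin d` which are transversal to a balanced map `x : L → Fin n` and have
prescribed values on a set `P`.
-/

set_option autoImplicit false
set_option linter.unusedSectionVars false

namespace Pool.Agent.Lib.MP_2e09cc_al

open Finset

variable {L : Type*} [Fintype L] [DecidableEq L] {n d : ℕ}

/-- `x` and `y` together are injective on `P`. -/
def InjP (P : Finset L) (x : L → Fin n) (y : L → Fin d) : Prop :=
  ∀ a ∈ P, ∀ b ∈ P, x a = x b → y a = y b → a = b

instance (P : Finset L) (x : L → Fin n) (y : L → Fin d) : Decidable (InjP P x y) := by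
  unfold InjP; infer_instance

theorem InjP.mono {P Q : Finset L} (h : P ⊆ Q) {x : L → Fin n} {y : L → Fin d}
    (hQ : InjP Q x y) : InjP P x y := fun a ha b hb => hQ a (h ha) b (h hb)

theorem InjP.congr {P : Finset L} {x x' : L → Fin n} {y y' : L → Fin d}
    (hx : ∀ a ∈ P, x a = x' a) (hy : ∀ a ∈ P, y a = y' a) (h : InjP P x y) : InjP P x' y' := by
  intro a ha b hb h1 h2
  rw [← hx a ha, ← hx b hb] at h1
  rw [← hy a ha, ← hy b hb] at h2
  exact h a ha b hb h1 h2

theorem cnt_insert {P : Finset L} {a : L} (ha : a ∉ P) (x : L → Fin n) (i : Fin n) :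
    cnt (insert a P) x i = cnt P x i + if x a = i then 1 else 0 := by
  unfold cnt
  rw [Finset.filter_insert]
  split_ifs with h
  · rw [Finset.card_insert_of_notMem (by simp [ha])]
  · simp

theorem count_ext (x : L → Fin n) (hx : ∀ i, cnt Finset.univ x i = d) :
    ∀ (Q : Finset L) (y₀ : L → Fin d), InjP Qᶜ x y₀ →
      (Finset.univ.filter fun y : L → Fin d => (∀ a ∈ Qᶜ, y a = y₀ a) ∧ InjP Finset.univ x y).card
        = ∏ i, (d - cnt Qᶜ x i).factorial := by
  classical
  intro Q
  induction Q using Finset.induction_on with
  | empty =>
    intro y₀ h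
    have e : (Finset.univ.filter fun y : L → Fin d =>
        (∀ a ∈ (∅ : Finset L)ᶜ, y a = y₀ a) ∧ InjP Finset.univ x y) = {y₀} := by
      ext y
      simp only [mem_filter, mem_univ, true_and, mem_singleton, Finset.compl_empty]
      constructor
      · rintro ⟨h1, _⟩
        funext a
        exact h1 a (by simp)
      · rintro rfl
        exact ⟨fun a _ => rfl, by simpa using h⟩
    rw [e, Finset.card_singleton]
    symm
    apply Finset.prod_eq_one
    intro i _
    rw [Finset.compl_empty, hx i, Nat.sub_self, Nat.factorial_zero]
  | insert a Q ha ih =>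
    intro y₀ h
    set P := (insert a Q)ᶜ with hP
    have haP : a ∉ P := by simp [hP]
    have hQP : Qᶜ = insert a P := by
      ext b
      simp only [hP, mem_compl, mem_insert]
      by_cases hb : b = a
      · subst hb; simp [ha]
      · simp [hb]
    rw [hQP] at ih
    have hk : cnt P x (x a) < d := by
      have h1 := cnt_insert haP x (x a)
      rw [if_pos rfl] at h1
      have h2 : cnt (insert a P) x (x a) ≤ cnt Finset.univ x (x a) :=
        Finset.card_le_card (Finset.filter_subset_filter _ (Finset.subset_univ _))
      rw [hx] at h2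
      omega
    set used := (P.filter fun b => x b = x a).image y₀ with hused
    have hused_card : used.card = cnt P x (x a) := by
      rw [hused, Finset.card_image_of_injOn]
      · rfl
      · intro b hb b' hb' hy
        rw [Finset.mem_coe, Finset.mem_filter] at hb hb'
        exact h b hb.1 b' hb'.1 (by rw [hb.2, hb'.2]) hy
    have hupd : ∀ (v : Fin d) (b : L), b ∈ P → Function.update y₀ a v b = y₀ b := by
      intro v b hb
      have hne : b ≠ a := fun h => haP (h ▸ hb)
      exact Function.update_of_ne hne _ _
    have hfib : ∀ v : Fin d, ((Finset.univ.filter fun y : L → Fin d =>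
        (∀ b ∈ P, y b = y₀ b) ∧ InjP Finset.univ x y).filter fun y => y a = v)
        = Finset.univ.filter fun y : L → Fin d =>
          (∀ b ∈ insert a P, y b = Function.update y₀ a v b) ∧ InjP Finset.univ x y := by
      intro v
      ext y
      simp only [mem_filter, mem_univ, true_and]
      constructor
      · rintro ⟨⟨h1, h2⟩, h3⟩
        refine ⟨fun b hb => ?_, h2⟩
        rcases Finset.mem_insert.mp hb with rfl | hb
        · rw [Function.update_self, h3]
        · rw [hupd v b hb, h1 b hb]
      · rintro ⟨h1, h2⟩
        refine ⟨⟨fun b hb => ?_, h2⟩, ?_⟩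
        · rw [h1 b (Finset.mem_insert_of_mem hb), hupd v b hb]
        · rw [h1 a (Finset.mem_insert_self _ _), Function.update_self]
    rw [Finset.card_eq_sum_card_fiberwise (f := fun y : L → Fin d => y a) (t := Finset.univ)
      (fun y _ => Finset.mem_univ _)]
    simp_rw [hfib]
    have hval : ∀ v : Fin d, (Finset.univ.filter fun y : L → Fin d =>
          (∀ b ∈ insert a P, y b = Function.update y₀ a v b) ∧ InjP Finset.univ x y).card
        = if v ∈ used then 0 else ∏ i, (d - cnt (insert a P) x i).factorial := by
      intro v
      by_cases hv : v ∈ used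
      · rw [if_pos hv, Finset.card_eq_zero, Finset.filter_eq_empty_iff]
        rintro y _ ⟨h1, h2⟩
        obtain ⟨b, hb, hbv⟩ := Finset.mem_image.mp hv
        rw [Finset.mem_filter] at hb
        have e1 : y b = v := by
          rw [h1 b (Finset.mem_insert_of_mem hb.1), hupd v b hb.1, hbv]
        have e2 : y a = v := by
          rw [h1 a (Finset.mem_insert_self _ _), Function.update_self]
        have := h2 b (mem_univ _) a (mem_univ _) hb.2 (by rw [e1, e2])
        exact haP (this ▸ hb.1)
      · rw [if_neg hv]
        apply ih
        intro b hb b' hb' hx' hy'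
        rcases Finset.mem_insert.mp hb with hb1 | hb1 <;> rcases Finset.mem_insert.mp hb' with hb2 | hb2
        · rw [hb1, hb2]
        · exfalso
          subst hb1
          rw [Function.update_self, hupd v b' hb2] at hy'
          exact hv (Finset.mem_image.mpr ⟨b', Finset.mem_filter.mpr ⟨hb2, hx'.symm⟩, hy'.symm⟩)
        · exfalso
          subst hb2
          rw [Function.update_self, hupd v b hb1] at hy'
          exact hv (Finset.mem_image.mpr ⟨b, Finset.mem_filter.mpr ⟨hb1, hx'⟩, hy'⟩)
        · rw [hupd v b hb1, hupd v b' hb2] at hy'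
          exact h b hb1 b' hb2 hx' hy'
    rw [Finset.sum_congr rfl (fun v _ => hval v), Finset.sum_ite, Finset.sum_const_zero, zero_add,
      Finset.sum_const, smul_eq_mul]
    have hfree : (Finset.univ.filter fun v : Fin d => v ∉ used).card = d - cnt P x (x a) := by
      rw [Finset.filter_not, Finset.card_sdiff_of_subset (Finset.filter_subset _ _),
        Finset.filter_mem_eq_inter, Finset.univ_inter, hused_card, Finset.card_univ,
        Fintype.card_fin]
    rw [hfree]
    have hsplit1 := Finset.mul_prod_erase (Finset.univ : Finset (Fin n))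
      (fun i => (d - cnt (insert a P) x i).factorial) (Finset.mem_univ (x a))
    have hsplit2 := Finset.mul_prod_erase (Finset.univ : Finset (Fin n))
      (fun i => (d - cnt P x i).factorial) (Finset.mem_univ (x a))
    rw [← hsplit1, ← hsplit2, ← mul_assoc]
    congr 1
    · rw [cnt_insert haP, if_pos rfl]
      have : d - cnt P x (x a) = (d - (cnt P x (x a) + 1)) + 1 := by omega
      rw [this, Nat.factorial_succ]
    · apply Finset.prod_congr rfl
      intro i hi
      have hne : x a ≠ i := fun h => (Finset.mem_erase.mp hi).1 h.symm
      rw [cnt_insert haP, if_neg hne, add_zero]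

/-- If the blocks of `P` are the fibres of `y`, with values less than `g`, and `P` has `n g` elements,
then every transversal map takes each value `g` times on `P`. -/
theorem cnt_of_InjP {P : Finset L} {g : ℕ} (hP : P.card = n * g) {x : L → Fin n} {y : L → Fin d}
    (hy : ∀ a ∈ P, (y a : ℕ) < g) (h : InjP P x y) (i : Fin n) : cnt P x i = g := by
  classical
  have hle : ∀ j, cnt P x j ≤ g := by
    intro j
    unfold cnt
    have h1 : (P.filter fun a => x a = j).card = ((P.filter fun a => x a = j).image
        fun a => (y a : ℕ)).card := by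
      rw [Finset.card_image_of_injOn]
      intro a ha b hb hab
      rw [Finset.mem_coe, Finset.mem_filter] at ha hb
      exact h a ha.1 b hb.1 (by rw [ha.2, hb.2]) (Fin.ext hab)
    rw [h1]
    calc _ ≤ (Finset.range g).card := by
          apply Finset.card_le_card
          intro v hv
          obtain ⟨a, ha, rfl⟩ := Finset.mem_image.mp hv
          exact Finset.mem_range.mpr (hy a (Finset.mem_filter.mp ha).1)
      _ = g := Finset.card_range g
  have hsum : ∑ j, cnt P x j = ∑ _j : Fin n, g := by
    rw [sum_cnt, hP, Finset.sum_const, Finset.card_univ, Fintype.card_fin, smul_eq_mul]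
  exact (Finset.sum_eq_sum_iff_of_le (fun j _ => hle j)).mp hsum i (Finset.mem_univ i)

end Pool.Agent.Lib.MP_2e09cc_al
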