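import Mathlib

/-!
A form of Newton's identities: on the maps `c : M → Fin n`, the indicator function of the maps which
are constant on a set `A` is a linear combination of the indicator functions of the maps which are
injective on the blocks of the partitions of `A`. A symmetric function whose sums over the maps which
are injective on the blocks vanish, for all partitions of `M`, is zero.
-/

set_option autoImplicit false
set_option linter.unusedSectionVars false

namespace Pool.Agent.Lib.MP_2e09cc_al

open Finset

variable {M : Type*} [Fintype M] [DecidableEq M] {n : ℕ} {K : Type*} [Field K] [CharZero K]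

open Classical in
/-- The indicator function of the maps which are injective on the blocks (the fibres of `κ`) of the
partition of `A`. -/
noncomputable def iota (K : Type*) [Field K] (κ : M → ℕ) (A : Finset M) : (M → Fin n) → K := fun c =>
  if ∀ a ∈ A, ∀ b ∈ A, c a = c b → κ a = κ b → a = b then 1 else 0

/-- The span of the functions `iota`. -/
noncomputable def EE (K : Type*) [Field K] (n : ℕ) (A : Finset M) : Submodule K ((M → Fin n) → K) :=
  Submodule.span K (Set.range fun κ : M → ℕ => iota K κ A)

theorem iota_mem (κ : M → ℕ) (A : Finset M) : (iota K κ A : (M → Fin n) → K) ∈ EE K n A :=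
  Submodule.subset_span ⟨κ, rfl⟩

open Classical in
theorem iota_mul_aux (κ : M → ℕ) (A : Finset M) (a : M) (ha : a ∉ A) :
    (fun c : M → Fin n => iota K κ A c * ((A.filter fun b => c b = c a).card : K))
      = ∑ k ∈ A.image κ, (iota K (Function.update κ a (A.sup κ + 1)) (insert a A)
          - iota K (Function.update κ a k) (insert a A)) := by
  funext c
  rw [Finset.sum_apply]
  simp only [Pi.sub_apply]
  have hupd : ∀ (v : ℕ) (b : M), b ∈ A → Function.update κ a v b = κ b := by
    intro v b hb
    have hne : b ≠ a := fun h => ha (h ▸ hb)
    exact Function.update_of_ne hne _ _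
  by_cases hi : ∀ a ∈ A, ∀ b ∈ A, c a = c b → κ a = κ b → a = b
  · have e0 : iota K κ A c = 1 := by unfold iota; rw [if_pos hi]
    have e1 : iota K (Function.update κ a (A.sup κ + 1)) (insert a A) c = 1 := by
      unfold iota
      rw [if_pos]
      intro x hx y hy hc hk
      rw [Finset.mem_insert] at hx hy
      rcases hx with rfl | hx <;> rcases hy with rfl | hy
      · rfl
      · rw [Function.update_self, hupd _ _ hy] at hk
        have := Finset.le_sup (f := κ) hy
        omega
      · rw [Function.update_self, hupd _ _ hx] at hk
        have := Finset.le_sup (f := κ) hx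
        omega
      · rw [hupd _ _ hx, hupd _ _ hy] at hk
        exact hi x hx y hy hc hk
    have e2 : ∀ k, iota K (Function.update κ a k) (insert a A) c
        = if ∃ b ∈ A, c b = c a ∧ κ b = k then 0 else 1 := by
      intro k
      unfold iota
      by_cases hb : ∃ b ∈ A, c b = c a ∧ κ b = k
      · rw [if_pos hb, if_neg]
        intro h
        obtain ⟨b, hb, hcb, hkb⟩ := hb
        have := h a (Finset.mem_insert_self _ _) b (Finset.mem_insert_of_mem hb) hcb.symm
          (by rw [Function.update_self, hupd _ _ hb, hkb])
        exact ha (this ▸ hb)
      · rw [if_neg hb, if_pos]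
        intro x hx y hy hc hk
        rw [Finset.mem_insert] at hx hy
        rcases hx with rfl | hx <;> rcases hy with rfl | hy
        · rfl
        · rw [Function.update_self, hupd _ _ hy] at hk
          exact absurd ⟨y, hy, hc.symm, hk.symm⟩ hb
        · rw [Function.update_self, hupd _ _ hx] at hk
          exact absurd ⟨x, hx, hc, hk⟩ hb
        · rw [hupd _ _ hx, hupd _ _ hy] at hk
          exact hi x hx y hy hc hk
    rw [e0, one_mul]
    have e3 : ∀ k ∈ A.image κ, (iota K (Function.update κ a (A.sup κ + 1)) (insert a A) c
        - iota K (Function.update κ a k) (insert a A) c : K)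
        = if k ∈ (A.filter fun b => c b = c a).image κ then 1 else 0 := by
      intro k _
      rw [e1, e2]
      by_cases hb : ∃ b ∈ A, c b = c a ∧ κ b = k
      · rw [if_pos hb, if_pos, sub_zero]
        obtain ⟨b, hb, hcb, hkb⟩ := hb
        exact Finset.mem_image.mpr ⟨b, Finset.mem_filter.mpr ⟨hb, hcb⟩, hkb⟩
      · rw [if_neg hb, if_neg, sub_self]
        intro h
        obtain ⟨b, hb', hkb⟩ := Finset.mem_image.mp h
        rw [Finset.mem_filter] at hb'
        exact hb ⟨b, hb'.1, hb'.2, hkb⟩
    rw [Finset.sum_congr rfl e3, Finset.sum_ite_mem,
      Finset.inter_eq_right.mpr (Finset.image_subset_image (Finset.filter_subset _ _)),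
      Finset.sum_const, nsmul_eq_mul, mul_one, Finset.card_image_of_injOn]
    intro x hx y hy hk
    rw [Finset.mem_coe, Finset.mem_filter] at hx hy
    exact hi x hx.1 y hy.1 (by rw [hx.2, hy.2]) hk
  · have e0 : iota K κ A c = 0 := by unfold iota; rw [if_neg hi]
    have e1 : ∀ v, iota K (Function.update κ a v) (insert a A) c = 0 := by
      intro v
      unfold iota
      rw [if_neg]
      intro h
      apply hi
      intro x hx y hy hc hk
      exact h x (Finset.mem_insert_of_mem hx) y (Finset.mem_insert_of_mem hy) hc
        (by rw [hupd _ _ hx, hupd _ _ hy, hk])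
    rw [e0, zero_mul]
    symm
    apply Finset.sum_eq_zero
    intro k _
    rw [e1, e1, sub_zero]

open Classical in
theorem EE_mul_aux (A : Finset M) (a : M) (ha : a ∉ A) (f : (M → Fin n) → K) (hf : f ∈ EE K n A) :
    (fun c : M → Fin n => f c * ((A.filter fun b => c b = c a).card : K)) ∈ EE K n (insert a A) := by
  unfold EE at hf
  induction hf using Submodule.span_induction with
  | mem f hf =>
    obtain ⟨κ, rfl⟩ := hf
    have := iota_mul_aux (K := K) (n := n) κ A a ha
    simp only at this ⊢
    rw [this]
    exact Submodule.sum_mem _ fun k _ => Submodule.sub_mem _ (iota_mem _ _) (iota_mem _ _)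
  | zero =>
    have := Submodule.zero_mem (EE K n (insert a A))
    convert this using 1
    funext c
    simp
  | add f g _ _ hf hg =>
    have := Submodule.add_mem _ hf hg
    convert this using 1
    funext c
    simp only [Pi.add_apply]
    ring
  | smul r f _ hf =>
    have := Submodule.smul_mem _ r hf
    convert this using 1
    funext c
    simp only [Pi.smul_apply, smul_eq_mul]
    ring

open Classical in
/-- The indicator function of the maps which are constant on `A`. -/
noncomputable def cst (K : Type*) [Field K] (A : Finset M) : (M → Fin n) → K := fun c =>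
  if ∀ a ∈ A, ∀ b ∈ A, c a = c b then 1 else 0

theorem cst_mem (A : Finset M) (hA : A.Nonempty) : (cst K A : (M → Fin n) → K) ∈ EE K n A := by
  classical
  induction hA using Finset.Nonempty.cons_induction with
  | singleton a =>
    have : (cst K {a} : (M → Fin n) → K) = iota K (fun _ => 0) {a} := by
      funext c
      unfold cst iota
      rw [if_pos, if_pos]
      · intro x hx y hy _ _
        rw [Finset.mem_singleton.mp hx, Finset.mem_singleton.mp hy]
      · intro x hx y hy
        rw [Finset.mem_singleton.mp hx, Finset.mem_singleton.mp hy]
    rw [this]
    exact iota_mem _ _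
  | cons a A ha hA ih =>
    rw [Finset.cons_eq_insert]
    have h1 := EE_mul_aux A a ha _ ih
    have h2 : (fun c : M → Fin n => cst K A c * ((A.filter fun b => c b = c a).card : K))
        = (A.card : K) • (cst K (insert a A) : (M → Fin n) → K) := by
      funext c
      rw [Pi.smul_apply, smul_eq_mul]
      unfold cst
      by_cases h : ∀ x ∈ A, ∀ y ∈ A, c x = c y
      · rw [if_pos h, one_mul]
        by_cases h' : ∀ x ∈ insert a A, ∀ y ∈ insert a A, c x = c y
        · rw [if_pos h', mul_one, Finset.filter_true_of_mem]
          intro b hb
          exact h' b (Finset.mem_insert_of_mem hb) a (Finset.mem_insert_self _ _)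
        · rw [if_neg h', mul_zero, Finset.filter_false_of_mem]
          · simp
          intro b hb hba
          apply h'
          intro x hx y hy
          have key : ∀ z ∈ insert a A, c z = c a := by
            intro z hz
            rcases Finset.mem_insert.mp hz with rfl | hz
            · rfl
            · rw [h z hz b hb, hba]
          rw [key x hx, key y hy]
      · rw [if_neg h, zero_mul, if_neg, mul_zero]
        intro h'
        exact h fun x hx y hy => h' x (Finset.mem_insert_of_mem hx) y (Finset.mem_insert_of_mem hy)
    rw [h2] at h1
    have hc : (A.card : K) ≠ 0 := by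
      have := hA.card_pos
      exact_mod_cast this.ne'
    have := Submodule.smul_mem _ (A.card : K)⁻¹ h1
    rwa [smul_smul, inv_mul_cancel₀ hc, one_smul] at this

theorem EE_mul (A B : Finset M) (hAB : Disjoint A B) (f g : (M → Fin n) → K) (hf : f ∈ EE K n A)
    (hg : g ∈ EE K n B) : (fun c => f c * g c) ∈ EE K n (A ∪ B) := by
  classical
  unfold EE at hf hg
  induction hf, hg using Submodule.span_induction₂ with
  | mem_mem f g hf hg =>
    obtain ⟨κ, rfl⟩ := hf
    obtain ⟨κ', rfl⟩ := hg
    have : (fun c : M → Fin n => iota K κ A c * iota K κ' B c)
        = iota K (fun a => if a ∈ A then 2 * κ a else 2 * κ' a + 1) (A ∪ B) := by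
      funext c
      have hB : ∀ b ∈ B, b ∉ A := fun b hb ha => (Finset.disjoint_left.mp hAB) ha hb
      by_cases h1 : ∀ a ∈ A, ∀ b ∈ A, c a = c b → κ a = κ b → a = b
      · by_cases h2 : ∀ a ∈ B, ∀ b ∈ B, c a = c b → κ' a = κ' b → a = b
        · unfold iota
          rw [if_pos h1, if_pos h2, if_pos, mul_one]
          intro x hx y hy hc hk
          simp only at hk
          rcases Finset.mem_union.mp hx with hx | hx <;> rcases Finset.mem_union.mp hy with hy | hy
          · rw [if_pos hx, if_pos hy] at hk
            exact h1 x hx y hy hc (by omega)
          · rw [if_pos hx, if_neg (hB y hy)] at hk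
            omega
          · rw [if_neg (hB x hx), if_pos hy] at hk
            omega
          · rw [if_neg (hB x hx), if_neg (hB y hy)] at hk
            exact h2 x hx y hy hc (by omega)
        · unfold iota
          rw [if_neg h2, mul_zero]
          symm
          apply if_neg
          intro h
          apply h2
          intro x hx y hy hc hk
          exact h x (Finset.mem_union_right _ hx) y (Finset.mem_union_right _ hy) hc
            (by simp only; rw [if_neg (hB x hx), if_neg (hB y hy), hk])
      · unfold iota
        rw [if_neg h1, zero_mul]
        symm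
        apply if_neg
        intro h
        apply h1
        intro x hx y hy hc hk
        exact h x (Finset.mem_union_left _ hx) y (Finset.mem_union_left _ hy) hc
          (by simp only; rw [if_pos hx, if_pos hy, hk])
    simp only at this ⊢
    rw [this]
    exact iota_mem _ _
  | zero_left g _ =>
    have := Submodule.zero_mem (EE K n (A ∪ B))
    convert this using 1
    funext c
    simp
  | zero_right f _ =>
    have := Submodule.zero_mem (EE K n (A ∪ B))
    convert this using 1
    funext c
    simp
  | add_left f f' g _ _ _ h1 h2 =>
    have := Submodule.add_mem _ h1 h2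
    convert this using 1
    funext c
    simp only [Pi.add_apply]
    ring
  | add_right f g g' _ _ _ h1 h2 =>
    have := Submodule.add_mem _ h1 h2
    convert this using 1
    funext c
    simp only [Pi.add_apply]
    ring
  | smul_left r f g _ _ h =>
    have := Submodule.smul_mem _ r h
    convert this using 1
    funext c
    simp only [Pi.smul_apply, smul_eq_mul]
    ring
  | smul_right r f g _ _ h =>
    have := Submodule.smul_mem _ r h
    convert this using 1
    funext c
    simp only [Pi.smul_apply, smul_eq_mul]
    ring

open Classical in
/-- The indicator function of the maps which are constant on the fibres of `c₀` over `V`. -/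
noncomputable def pp (K : Type*) [Field K] (c₀ : M → Fin n) (V : Finset (Fin n)) :
    (M → Fin n) → K := fun c =>
  if ∀ a b, c₀ a ∈ V → c₀ a = c₀ b → c a = c b then 1 else 0

theorem pp_mem (c₀ : M → Fin n) (V : Finset (Fin n)) :
    (pp K c₀ V : (M → Fin n) → K) ∈ EE K n (Finset.univ.filter fun a => c₀ a ∈ V) := by
  classical
  induction V using Finset.induction_on with
  | empty =>
    have : (pp K c₀ ∅ : (M → Fin n) → K) = iota K (fun _ => 0) (Finset.univ.filter fun a => c₀ a ∈ (∅ : Finset (Fin n))) := by
      funext c
      unfold pp iota
      rw [if_pos, if_pos]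
      · intro x hx
        simp at hx
      · intro a b ha
        simp at ha
    rw [this]
    exact iota_mem _ _
  | insert v V hv ih =>
    set F := Finset.univ.filter fun a => c₀ a = v with hF
    by_cases hne : F.Nonempty
    · have h1 := EE_mul (Finset.univ.filter fun a => c₀ a ∈ V) F (by
        rw [Finset.disjoint_left]
        intro a ha ha'
        simp only [hF, Finset.mem_filter, Finset.mem_univ, true_and] at ha ha'
        exact hv (ha' ▸ ha)) _ _ ih (cst_mem (K := K) F hne)
      have h2 : (Finset.univ.filter fun a => c₀ a ∈ V) ∪ F
          = Finset.univ.filter fun a => c₀ a ∈ insert v V := by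
        ext a
        simp only [hF, Finset.mem_union, Finset.mem_filter, Finset.mem_univ, true_and,
          Finset.mem_insert]
        tauto
      have h3 : (fun c : M → Fin n => pp K c₀ V c * cst K F c) = pp K c₀ (insert v V) := by
        funext c
        unfold pp cst
        by_cases h : ∀ a b, c₀ a ∈ V → c₀ a = c₀ b → c a = c b
        · by_cases h' : ∀ a ∈ F, ∀ b ∈ F, c a = c b
          · rw [if_pos h, if_pos h', if_pos, mul_one]
            intro a b ha hab
            rcases Finset.mem_insert.mp ha with ha | ha
            · exact h' a (by simp [hF, ha]) b (by simp [hF, ← hab, ha])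
            · exact h a b ha hab
          · rw [if_neg h', mul_zero]
            symm
            apply if_neg
            intro h''
            apply h'
            intro a ha b hb
            simp only [hF, Finset.mem_filter, Finset.mem_univ, true_and] at ha hb
            exact h'' a b (by rw [ha]; exact Finset.mem_insert_self _ _) (by rw [ha, hb])
        · rw [if_neg h, zero_mul]
          symm
          apply if_neg
          intro h''
          exact h fun a b ha hab => h'' a b (Finset.mem_insert_of_mem ha) hab
      rw [← h2, ← h3]
      exact h1
    · have hemp : ∀ a, c₀ a ≠ v := by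
        intro a ha
        exact hne ⟨a, by simp [hF, ha]⟩
      have h2 : (Finset.univ.filter fun a => c₀ a ∈ insert v V)
          = Finset.univ.filter fun a => c₀ a ∈ V := by
        ext a
        simp only [Finset.mem_filter, Finset.mem_univ, true_and, Finset.mem_insert]
        have := hemp a
        tauto
      have h3 : (pp K c₀ (insert v V) : (M → Fin n) → K) = pp K c₀ V := by
        funext c
        unfold pp
        congr 1
        apply propext
        constructor
        · intro h a b ha hab
          exact h a b (Finset.mem_insert_of_mem ha) hab
        · intro h a b ha hab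
          rcases Finset.mem_insert.mp ha with ha | ha
          · exact absurd ha (hemp a)
          · exact h a b ha hab
      rw [h2, h3]
      exact ih

/-- The linear functional defined by `ξ`. -/
noncomputable def lam (ξ : (M → Fin n) → K) : ((M → Fin n) → K) →ₗ[K] K where
  toFun f := ∑ c, f c * ξ c
  map_add' f g := by
    simp only [Pi.add_apply, add_mul, Finset.sum_add_distrib]
  map_smul' r f := by
    simp only [Pi.smul_apply, smul_eq_mul, RingHom.id_apply, Finset.mul_sum, mul_assoc]

theorem newton_aux (ξ : (M → Fin n) → K)
    (hsym : ∀ (σ : Equiv.Perm (Fin n)) (c : M → Fin n), ξ (σ ∘ c) = ξ c)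
    (H : ∀ κ : M → ℕ, lam ξ (iota K κ Finset.univ) = 0) : ∀ c, ξ c = 0 := by
  classical
  have hE : ∀ f ∈ EE K n (Finset.univ : Finset M), lam ξ f = 0 := by
    intro f hf
    unfold EE at hf
    induction hf using Submodule.span_induction with
    | mem f hf => obtain ⟨κ, rfl⟩ := hf; exact H κ
    | zero => simp
    | add f g _ _ hf hg => rw [map_add, hf, hg, add_zero]
    | smul r f _ hf => rw [map_smul, hf, smul_zero]
  have key : ∀ (k : ℕ) (c : M → Fin n), (Finset.univ.image c).card = k → ξ c = 0 := by
    intro k
    induction k using Nat.strong_induction_on with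
    | _ k ih =>
      intro c₀ hc₀
      have h1 := hE (pp K c₀ Finset.univ) (by
        have := pp_mem (K := K) c₀ Finset.univ
        simpa using this)
      have h2 : ∀ c : M → Fin n, pp K c₀ Finset.univ c * ξ c = pp K c₀ Finset.univ c *
          (if (Finset.univ.image c).card = k then ξ c₀ else 0) := by
        intro c
        unfold pp
        by_cases h : ∀ a b, c₀ a ∈ (Finset.univ : Finset (Fin n)) → c₀ a = c₀ b → c a = c b
        · rw [if_pos h, one_mul, one_mul]
          have hf : ∃ f : Fin n → Fin n, ∀ a, f (c₀ a) = c a := by
            refine ⟨fun v => if hv : ∃ a, c₀ a = v then c hv.choose else v, fun a => ?_⟩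
            have hv : ∃ b, c₀ b = c₀ a := ⟨a, rfl⟩
            simp only [dif_pos hv]
            exact h _ _ (Finset.mem_univ _) hv.choose_spec
          obtain ⟨f, hf⟩ := hf
          have himg : Finset.univ.image c = (Finset.univ.image c₀).image f := by
            ext v
            simp only [Finset.mem_image, Finset.mem_univ, true_and]
            constructor
            · rintro ⟨a, rfl⟩
              exact ⟨c₀ a, ⟨a, rfl⟩, hf a⟩
            · rintro ⟨_, ⟨a, rfl⟩, rfl⟩
              exact ⟨a, (hf a).symm⟩
          by_cases hk : (Finset.univ.image c).card = k
          · rw [if_pos hk]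
            have hinj : Set.InjOn f (Finset.univ.image c₀ : Finset (Fin n)) := by
              apply Finset.injOn_of_card_image_eq
              rw [← himg, hk, hc₀]
            obtain ⟨g, hg⟩ := Finset.exists_equiv_extend_of_card_eq (α := Fin n) (β := Fin n)
              (t := Finset.univ) (by simp) (s := Finset.univ.image c₀) (f := f)
              (by intro x _; exact Finset.mem_univ _) hinj
            set σ : Equiv.Perm (Fin n) := g.trans (Equiv.subtypeUnivEquiv (by simp)) with hσ
            have hσc : σ ∘ c₀ = c := by
              funext a
              rw [Function.comp_apply, ← hf a]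
              exact hg (c₀ a) (Finset.mem_image_of_mem _ (Finset.mem_univ _))
            rw [← hσc, hsym]
          · rw [if_neg hk]
            apply ih (Finset.univ.image c).card _ c rfl
            have : (Finset.univ.image c).card ≤ (Finset.univ.image c₀).card := by
              rw [himg]; exact Finset.card_image_le
            omega
        · rw [if_neg h, zero_mul, zero_mul]
      have h3 : lam ξ (pp K c₀ Finset.univ)
          = ((Finset.univ.filter fun c : M → Fin n =>
            (∀ a b, c₀ a = c₀ b → c a = c b) ∧ (Finset.univ.image c).card = k).card : K) * ξ c₀ := by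
        show ∑ c, pp K c₀ Finset.univ c * ξ c = _
        rw [Finset.sum_congr rfl (fun c _ => h2 c), ← nsmul_eq_mul, ← Finset.sum_const,
          Finset.sum_filter]
        apply Finset.sum_congr rfl
        intro c _
        unfold pp
        by_cases hA : ∀ a b, c₀ a = c₀ b → c a = c b
        · by_cases hB : (Finset.univ.image c).card = k
          · rw [if_pos (fun a b _ h => hA a b h), if_pos hB, if_pos ⟨hA, hB⟩, one_mul]
          · rw [if_neg hB, mul_zero]
            symm
            apply if_neg
            exact fun h => hB h.2
        · rw [if_neg (fun h => hA fun a b hab => h a b (Finset.mem_univ _) hab), zero_mul]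
          symm
          apply if_neg
          exact fun h => hA h.1
      rw [h3] at h1
      rcases mul_eq_zero.mp h1 with h | h
      · exfalso
        have h4 : (Finset.univ.filter fun c : M → Fin n =>
            (∀ a b, c₀ a = c₀ b → c a = c b) ∧ (Finset.univ.image c).card = k).card = 0 := by
          exact_mod_cast h
        rw [Finset.card_eq_zero] at h4
        have h5 : c₀ ∈ (Finset.univ.filter fun c : M → Fin n =>
            (∀ a b, c₀ a = c₀ b → c a = c b) ∧ (Finset.univ.image c).card = k) := by
          simp [hc₀]
        rw [h4] at h5
        simp at h5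
      · exact h
  intro c
  exact key _ c rfl

/-- The version in which only partitions with a block with two elements are used, for functions which
vanish on the constant maps. -/
theorem newton_const (ξ : (M → Fin n) → K)
    (hsym : ∀ (σ : Equiv.Perm (Fin n)) (c : M → Fin n), ξ (σ ∘ c) = ξ c)
    (H : ∀ κ : M → ℕ, ¬ Function.Injective κ → lam ξ (iota K κ Finset.univ) = 0)
    (Hc : ∀ c : M → Fin n, (∀ a b, c a = c b) → ξ c = 0) : ∀ c, ξ c = 0 := by
  classical
  by_cases hM : Nonempty M
  swap
  · intro c
    exact Hc c fun a => absurd ⟨a⟩ hM
  by_cases hn : n = 0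
  · subst hn
    intro c
    exact Fin.elim0 (c hM.some)
  have hone : lam ξ (fun _ => (1 : K)) = 0 := by
    have h1 := cst_mem (K := K) (n := n) (Finset.univ : Finset M) Finset.univ_nonempty
    -- decompose
    have h2 : ∀ f ∈ EE K n (Finset.univ : Finset M), ∃ r : K, lam ξ f = r * lam ξ (fun _ => (1 : K)) ∧
        ∀ c : M → Fin n, (∀ a b, c a = c b) → f c = r := by
      intro f hf
      unfold EE at hf
      induction hf using Submodule.span_induction with
      | mem f hf =>
        obtain ⟨κ, rfl⟩ := hf
        by_cases hκ : Function.Injective κ
        · refine ⟨1, ?_, ?_⟩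
          · rw [one_mul]
            congr 1
            funext c
            simp only [iota]
            rw [if_pos]
            intro a _ b _ _ h
            exact hκ h
          · intro c _
            simp only [iota]
            rw [if_pos]
            intro a _ b _ _ h
            exact hκ h
        · refine ⟨0, ?_, ?_⟩
          · rw [zero_mul]; exact H κ hκ
          · intro c hc
            simp only [iota]
            rw [if_neg]
            intro h
            apply hκ
            intro a b hab
            exact h a (Finset.mem_univ _) b (Finset.mem_univ _) (hc a b) hab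
      | zero => exact ⟨0, by simp, fun _ _ => rfl⟩
      | add f g _ _ hf hg =>
        obtain ⟨r, h1, h2⟩ := hf
        obtain ⟨s, h3, h4⟩ := hg
        refine ⟨r + s, by rw [map_add, h1, h3]; ring, fun c hc => ?_⟩
        rw [Pi.add_apply, h2 c hc, h4 c hc]
      | smul t f _ hf =>
        obtain ⟨r, h1, h2⟩ := hf
        refine ⟨t * r, by rw [map_smul, h1, smul_eq_mul]; ring, fun c hc => ?_⟩
        rw [Pi.smul_apply, h2 c hc, smul_eq_mul]
    obtain ⟨r, h3, h4⟩ := h2 _ h1
    have h5 : lam ξ (cst K (Finset.univ : Finset M)) = 0 := by
      show ∑ c, cst K Finset.univ c * ξ c = 0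
      apply Finset.sum_eq_zero
      intro c _
      unfold cst
      by_cases h : ∀ a ∈ (Finset.univ : Finset M), ∀ b ∈ (Finset.univ : Finset M), c a = c b
      · rw [Hc c (fun a b => h a (Finset.mem_univ _) b (Finset.mem_univ _)), mul_zero]
      · rw [if_neg h, zero_mul]
    have h6 : r = 1 := by
      have := h4 (fun _ => ⟨0, Nat.pos_of_ne_zero hn⟩) (fun _ _ => rfl)
      rw [← this]
      simp [cst]
    rw [h6, one_mul, h5] at h3
    exact h3.symm
  apply newton_aux ξ hsym
  intro κ
  by_cases hκ : Function.Injective κ
  · rw [← hone]
    congr 1
    funext c
    simp only [iota]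
    rw [if_pos]
    intro a _ b _ _ h
    exact hκ h
  · exact H κ hκ

end Pool.Agent.Lib.MP_2e09cc_al
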