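import Mathlib
import Pool.Agent.Lib.MP_2e09cc_al.Count
import Pool.Agent.Lib.MP_2e09cc_al.Newton

/-!
Injectivity of the transversal map between functions on the partitions of a set with `n d` elements
in `n` blocks of size `d` and in `d` blocks of size `n`, in terms of maps.
-/

set_option autoImplicit false
set_option linter.unusedSectionVars false

namespace Pool.Agent.Lib.MP_2e09cc_al

open Finset

variable {L : Type*} [Fintype L] [DecidableEq L] {n d : ℕ} {K : Type*} [Field K] [CharZero K]

/-- The sum of `φ` over the maps with the values of `c` on `T`, transversal to `y₀` on `P`. -/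
def QQ (φ : (L → Fin n) → K) (P T : Finset L) (y₀ : L → Fin d) (c : L → Fin n) : K :=
  ∑ x : L → Fin n with (∀ a ∈ T, x a = c a) ∧ InjP P x y₀, φ x

theorem card_filter_sub (T : Finset L) (x : L → Fin n) (i : Fin n) :
    (Finset.univ.filter fun a : T => x a = i).card = cnt T x i := by
  classical
  unfold cnt
  apply Finset.card_bij (fun (a : T) _ => (a : L))
  · intro a ha
    rw [Finset.mem_filter] at ha ⊢
    exact ⟨a.2, ha.2⟩
  · intro a _ b _ h
    exact Subtype.ext h
  · intro b hb
    rw [Finset.mem_filter] at hb
    exact ⟨⟨b, hb.1⟩, by simp [hb.2], rfl⟩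

/-- The weight of a map on `T`. -/
noncomputable def ww (K : Type*) [Field K] (E : ℕ) {M : Type*} [Fintype M] (c : M → Fin n) : K :=
  ((∏ i, (E - (Finset.univ.filter fun a : M => c a = i).card).factorial : ℕ) : K)

theorem ww_ne_zero (E : ℕ) {M : Type*} [Fintype M] (c : M → Fin n) : ww K E c ≠ 0 := by
  unfold ww
  rw [Nat.cast_ne_zero]
  exact Finset.prod_ne_zero_iff.mpr fun i _ => Nat.factorial_ne_zero _

theorem ww_symm (E : ℕ) {M : Type*} [Fintype M] (σ : Equiv.Perm (Fin n)) (c : M → Fin n) :
    ww K E (σ ∘ c) = ww K E c := by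
  unfold ww
  congr 1
  apply Fintype.prod_equiv σ.symm
  intro i
  congr 3
  ext a
  simp [Equiv.eq_symm_apply]

/-- The restricted sum as a function of the map on `T`. -/
def xi (φ : (L → Fin n) → K) (P T : Finset L) (y₀ : L → Fin d) (c : T → Fin n) : K :=
  ∑ x : L → Fin n with (∀ a : T, x a = c a) ∧ InjP P x y₀, φ x

theorem xi_symm (φ : (L → Fin n) → K)
    (hsym : ∀ (σ : Equiv.Perm (Fin n)) (x : L → Fin n), φ (σ ∘ x) = φ x)
    (P T : Finset L) (y₀ : L → Fin d) (σ : Equiv.Perm (Fin n)) (c : T → Fin n) :
    xi φ P T y₀ (σ ∘ c) = xi φ P T y₀ c := by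
  classical
  unfold xi
  apply Finset.sum_nbij' (fun x => σ.symm ∘ x) (fun x => σ ∘ x)
  · intro x hx
    simp only [mem_filter, mem_univ, true_and] at hx ⊢
    refine ⟨fun a => ?_, fun a ha b hb h1 h2 => ?_⟩
    · rw [Function.comp_apply, hx.1 a, Function.comp_apply, Equiv.symm_apply_apply]
    · exact hx.2 a ha b hb (σ.symm.injective h1) h2
  · intro x hx
    simp only [mem_filter, mem_univ, true_and] at hx ⊢
    refine ⟨fun a => ?_, fun a ha b hb h1 h2 => ?_⟩
    · rw [Function.comp_apply, hx.1 a, Function.comp_apply]
    · exact hx.2 a ha b hb (σ.injective h1) h2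
  · intro x _
    funext a
    simp
  · intro x _
    funext a
    simp
  · intro x _
    rw [← hsym σ (σ.symm ∘ x)]
    congr 1
    funext a
    simp

theorem key_sum (φ : (L → Fin n) → K)
    (hsupp : ∀ x, φ x ≠ 0 → ∀ i, cnt Finset.univ x i = d)
    (hFN : ∀ y : L → Fin d, ∑ x : L → Fin n with InjP Finset.univ x y, φ x = 0)
    (E g : ℕ) (hd : d = E + g) (P T : Finset L) (hPT : Disjoint P T) (y₀ : L → Fin d)
    (hP : P.card = n * g) (hy : ∀ a ∈ P, (y₀ a : ℕ) < g) (κ : T → Fin E) :
    ∑ c : T → Fin n, (if ∀ a b : T, c a = c b → κ a = κ b → a = b then (1 : K) else 0)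
      * (ww K E c * xi φ P T y₀ c) = 0 := by
  classical
  set yk : L → Fin d := fun a => if h : a ∈ T then ⟨g + κ ⟨a, h⟩, by
    have := (κ ⟨a, h⟩).2; omega⟩ else y₀ a with hyk
  have hykT : ∀ (a : L) (h : a ∈ T), (yk a : ℕ) = g + κ ⟨a, h⟩ := by
    intro a h
    simp [hyk, h]
  have hPnT : ∀ a ∈ P, a ∉ T := fun a ha hT => (Finset.disjoint_left.mp hPT) ha hT
  have hykP : ∀ a ∈ P, yk a = y₀ a := by
    intro a ha
    simp [hyk, hPnT a ha]
  have hinj : ∀ x : L → Fin n, InjP (P ∪ T) x yk ↔
      InjP P x y₀ ∧ ∀ a b : T, x a = x b → κ a = κ b → a = b := by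
    intro x
    constructor
    · intro h
      refine ⟨?_, ?_⟩
      · exact InjP.congr (fun _ _ => rfl) hykP (InjP.mono Finset.subset_union_left h)
      · intro a b h1 h2
        apply Subtype.ext
        apply h a (Finset.mem_union_right _ a.2) b (Finset.mem_union_right _ b.2) h1
        apply Fin.ext
        rw [hykT a a.2, hykT b b.2]
        have : κ ⟨(a : L), a.2⟩ = κ ⟨(b : L), b.2⟩ := h2
        rw [this]
    · rintro ⟨h1, h2⟩ a ha b hb hx hy'
      rcases Finset.mem_union.mp ha with ha | ha <;> rcases Finset.mem_union.mp hb with hb | hb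
      · rw [hykP a ha, hykP b hb] at hy'
        exact h1 a ha b hb hx hy'
      · exfalso
        have e1 := hykT b hb
        rw [← hy', hykP a ha] at e1
        have := hy a ha
        omega
      · exfalso
        have e1 := hykT a ha
        rw [hy', hykP b hb] at e1
        have := hy b hb
        omega
      · have e1 := hykT a ha
        have e2 := hykT b hb
        rw [hy'] at e1
        have := h2 ⟨a, ha⟩ ⟨b, hb⟩ hx (Fin.ext (by omega))
        exact congrArg Subtype.val this
  -- the sum over `y`
  have h0 : ∑ y : L → Fin d with ∀ a ∈ P ∪ T, y a = yk a,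
      ∑ x : L → Fin n with InjP Finset.univ x y, φ x = 0 :=
    Finset.sum_eq_zero fun y _ => hFN y
  have h1 : ∑ y : L → Fin d with ∀ a ∈ P ∪ T, y a = yk a,
      ∑ x : L → Fin n with InjP Finset.univ x y, φ x
      = ∑ x : L → Fin n, ∑ y : L → Fin d with (∀ a ∈ P ∪ T, y a = yk a) ∧ InjP Finset.univ x y,
          φ x := by
    apply Finset.sum_comm'
    intro y x
    simp only [mem_filter, mem_univ, true_and, and_true]
  have h2 : ∀ x : L → Fin n,
      ∑ y : L → Fin d with (∀ a ∈ P ∪ T, y a = yk a) ∧ InjP Finset.univ x y, φ x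
      = (if ∀ a b : T, x a = x b → κ a = κ b → a = b then (1 : K) else 0)
        * (ww K E (fun a : T => x a) * (if InjP P x y₀ then φ x else 0)) := by
    intro x
    by_cases h0 : φ x = 0
    · simp [h0]
    have hx := hsupp x h0
    rw [Finset.sum_const, nsmul_eq_mul]
    by_cases hi : InjP (P ∪ T) x yk
    · have hc := count_ext x hx (P ∪ T)ᶜ yk (by rw [compl_compl]; exact hi)
      rw [compl_compl] at hc
      rw [hc, if_pos ((hinj x).mp hi).2, if_pos ((hinj x).mp hi).1, one_mul]
      congr 1
      unfold ww
      congr 1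
      apply Finset.prod_congr rfl
      intro i _
      rw [card_filter_sub, cnt_union hPT, cnt_of_InjP hP hy ((hinj x).mp hi).1]
      congr 1
      omega
    · have he : (Finset.univ.filter fun y : L → Fin d =>
          (∀ a ∈ P ∪ T, y a = yk a) ∧ InjP Finset.univ x y) = ∅ := by
        rw [Finset.filter_eq_empty_iff]
        rintro y _ ⟨h1, h2⟩
        exact hi (InjP.congr (fun _ _ => rfl) h1 (InjP.mono (Finset.subset_univ _) h2))
      rw [he, Finset.card_empty, Nat.cast_zero, zero_mul]
      rw [hinj x, not_and_or] at hi
      rcases hi with h | h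
      · rw [if_neg h]; ring
      · rw [if_neg h]; ring
  rw [h1, Finset.sum_congr rfl (fun x _ => h2 x)] at h0
  refine Eq.trans ?_ (Eq.trans (Finset.sum_fiberwise (Finset.univ : Finset (L → Fin n))
    (fun x => (fun a : T => x a)) _) h0)
  apply Finset.sum_congr rfl
  intro c _
  unfold xi
  rw [Finset.mul_sum, Finset.mul_sum, Finset.sum_filter, Finset.sum_filter]
  apply Finset.sum_congr rfl
  intro x _
  by_cases hxc : (fun a : T => x a) = c
  · have hxc' : ∀ a : T, x a = c a := fun a => congrFun hxc a
    rw [if_pos hxc]
    subst hxc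
    by_cases hi : InjP P x y₀
    · rw [if_pos ⟨fun _ => rfl, hi⟩, if_pos hi]
    · rw [if_neg (fun h => hi h.2), if_neg hi]; ring
  · rw [if_neg hxc, if_neg]
    rintro ⟨h, _⟩
    exact hxc (funext h)

theorem ambient (φ : (L → Fin n) → K)
    (hsym : ∀ (σ : Equiv.Perm (Fin n)) (x : L → Fin n), φ (σ ∘ x) = φ x)
    (hsupp : ∀ x, φ x ≠ 0 → ∀ i, cnt Finset.univ x i = d)
    (hFN : ∀ y : L → Fin d, ∑ x : L → Fin n with InjP Finset.univ x y, φ x = 0)
    (E g : ℕ) (hd : d = E + g) (P T : Finset L) (hPT : Disjoint P T) (y₀ : L → Fin d)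
    (hP : P.card = n * g) (hy : ∀ a ∈ P, (y₀ a : ℕ) < g) (hT : T.card ≤ E + 1)
    (c : L → Fin n) : QQ φ P T y₀ c = 0 := by
  classical
  set ξ : (T → Fin n) → K := fun c => ww K E c * xi φ P T y₀ c with hξ
  have hξs : ∀ (σ : Equiv.Perm (Fin n)) (c : T → Fin n), ξ (σ ∘ c) = ξ c := by
    intro σ c
    simp only [hξ]
    rw [ww_symm, xi_symm φ hsym]
  have hκ : ∀ κ : T → ℕ, (Finset.univ.image κ).card ≤ E → lam ξ (iota K κ Finset.univ) = 0 := by
    intro κ hc
    obtain ⟨e⟩ : Nonempty ((Finset.univ.image κ : Finset ℕ) ↪ Fin E) := by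
      apply Function.Embedding.nonempty_of_card_le
      simpa using hc
    have hmem : ∀ a, κ a ∈ Finset.univ.image κ := fun a => Finset.mem_image_of_mem _ (mem_univ a)
    set κ' : T → Fin E := fun a => e ⟨κ a, hmem a⟩ with hκ'
    have hiff : ∀ a b, κ' a = κ' b ↔ κ a = κ b := by
      intro a b
      simp only [hκ']
      rw [e.injective.eq_iff, Subtype.mk_eq_mk]
    have h1 := key_sum φ hsupp hFN E g hd P T hPT y₀ hP hy κ'
    rw [← h1]
    show ∑ c, iota K κ Finset.univ c * ξ c = _
    apply Finset.sum_congr rfl
    intro c _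
    unfold iota
    congr 1
    apply if_congr _ rfl rfl
    constructor
    · intro h a b hab hk
      exact h a (mem_univ _) b (mem_univ _) hab ((hiff a b).mp hk)
    · intro h a _ b _ hab hk
      exact h a b hab ((hiff a b).mpr hk)
  have hall : ∀ c, ξ c = 0 := by
    by_cases hTE : T.card ≤ E
    · apply newton_aux ξ hξs
      intro κ
      apply hκ
      calc _ ≤ (Finset.univ : Finset T).card := Finset.card_image_le
        _ = T.card := by simp
        _ ≤ E := hTE
    · have hTE' : T.card = E + 1 := by omega
      apply newton_const ξ hξs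
      · intro κ hni
        apply hκ
        have h1 : (Finset.univ.image κ).card ≤ (Finset.univ : Finset T).card :=
          Finset.card_image_le
        have h2 : (Finset.univ.image κ).card ≠ (Finset.univ : Finset T).card := by
          intro h
          apply hni
          have := Finset.injOn_of_card_image_eq h
          intro a b hab
          exact this (Finset.mem_coe.mpr (mem_univ a)) (Finset.mem_coe.mpr (mem_univ b)) hab
        have h3 : (Finset.univ : Finset T).card = T.card := by simp
        omega
      · intro c hc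
        simp only [hξ]
        have : xi φ P T y₀ c = 0 := by
          unfold xi
          apply Finset.sum_eq_zero
          intro x hx
          rw [mem_filter] at hx
          obtain ⟨_, hx1, hx2⟩ := hx
          by_contra h0
          have hne : T.Nonempty := by
            rw [← Finset.card_pos]; omega
          obtain ⟨a, ha⟩ := hne
          have e1 : cnt T x (c ⟨a, ha⟩) = T.card := by
            unfold cnt
            congr 1
            apply Finset.filter_true_of_mem
            intro b hb
            rw [hx1 ⟨b, hb⟩]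
            exact hc _ _
          have e2 := cnt_of_InjP hP hy hx2 (c ⟨a, ha⟩)
          have e3 := cnt_union hPT x (c ⟨a, ha⟩)
          have e4 := hsupp x h0 (c ⟨a, ha⟩)
          have e5 : cnt (P ∪ T) x (c ⟨a, ha⟩) ≤ cnt Finset.univ x (c ⟨a, ha⟩) :=
            Finset.card_le_card (Finset.filter_subset_filter _ (Finset.subset_univ _))
          omega
        rw [this, mul_zero]
  have h := hall (fun a => c a)
  simp only [hξ] at h
  have h' := (mul_eq_zero.mp h).resolve_left (ww_ne_zero E _)
  rw [← h']
  unfold QQ xi
  apply Finset.sum_congr _ (fun _ _ => rfl)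
  apply Finset.filter_congr
  intro x _
  constructor
  · rintro ⟨h1, h2⟩
    exact ⟨fun a => h1 a a.2, h2⟩
  · rintro ⟨h1, h2⟩
    exact ⟨fun a ha => h1 ⟨a, ha⟩, h2⟩

theorem core_aux (φ : (L → Fin n) → K)
    (hsym : ∀ (σ : Equiv.Perm (Fin n)) (x : L → Fin n), φ (σ ∘ x) = φ x)
    (hsupp : ∀ x, φ x ≠ 0 → ∀ i, cnt Finset.univ x i = d)
    (hFN : ∀ y : L → Fin d, ∑ x : L → Fin n with InjP Finset.univ x y, φ x = 0)
    (E g : ℕ) (hd : d = E + g) (hE : ∀ i : Fin n, (i : ℕ) ≤ E)
    (hW : ∑ i : Fin n, (i : ℕ) ≤ E + 1) :
    ∀ h ≤ g, ∀ (P T : Finset L) (y₀ : L → Fin d) (c : L → Fin n), Disjoint P T →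
      P.card = n * (g - h) → (∀ a ∈ P, (y₀ a : ℕ) < g - h) →
      (∀ i : Fin n, cnt T c i + (E - i) + (g - h) = d) → QQ φ P T y₀ c = 0 := by
  classical
  intro h
  induction h with
  | zero =>
    intro _ P T y₀ c hPT hP hy hc
    apply ambient φ hsym hsupp hFN E g hd P T hPT y₀ (by simpa using hP) (by simpa using hy)
    have h1 : ∀ i : Fin n, cnt T c i = i := by
      intro i
      have := hc i
      have := hE i
      omega
    rw [← sum_cnt T c]
    calc ∑ i, cnt T c i = ∑ i : Fin n, (i : ℕ) := Finset.sum_congr rfl fun i _ => h1 i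
      _ ≤ E + 1 := hW
  | succ h ih =>
    intro hh P T y₀ c hPT hP hy hc
    have ih' := ih (by omega)
    set l := g - (h + 1) with hl
    have hl1 : g - h = l + 1 := by omega
    rw [hl1] at ih'
    set ψ : (L → Fin n) → K := fun c' =>
      if ∀ i : Fin n, cnt T c' i + (E - i) + l = d then QQ φ P T y₀ c' else 0 with hψ
    have hJ : ∀ x, ψ x = 0 := by
      apply Jlem ψ T (fun i => d - l - (E - i)) (fun _ => 1)
      · intro x hx i
        simp only [hψ] at hx
        by_cases hq : ∀ i : Fin n, cnt T x i + (E - i) + l = d
        · have := hq i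
          omega
        · rw [if_neg hq] at hx
          exact absurd rfl hx
      · intro i
        have h1 : ∑ j : Fin n with j ≤ i, 1 = (i : ℕ) + 1 := by
          rw [Finset.sum_const, smul_eq_mul, mul_one]
          have : (Finset.univ.filter fun j : Fin n => j ≤ i) = Finset.Iic i := by
            ext j; simp
          rw [this, Fin.card_Iic]
        rw [h1]
        have := hE i
        have := i.2
        omega
      · intro C hC c' hCc hcnt
        have hCn : C.card = n := by simpa using hCc
        have hcnt' : ∀ j : Fin n, cnt (T \ C) c' j + (E - j) + (l + 1) = d := by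
          intro j
          have h1 := hcnt j
          omega
        have hld : l < d := by omega
        set y₁ : L → Fin d := fun a => if a ∈ C then ⟨l, hld⟩ else y₀ a with hy₁
        have hPC : ∀ a ∈ P, a ∉ C := fun a ha hC' => (Finset.disjoint_left.mp hPT) ha (hC hC')
        have hy₁P : ∀ a ∈ P, y₁ a = y₀ a := by
          intro a ha
          simp [hy₁, hPC a ha]
        have hy₁C : ∀ a ∈ C, y₁ a = ⟨l, hld⟩ := by
          intro a ha
          simp [hy₁, ha]
        have hQ : QQ φ (P ∪ C) (T \ C) y₁ c' = 0 := by
          apply ih' (P ∪ C) (T \ C) y₁ c'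
          · rw [Finset.disjoint_left]
            intro a ha ha'
            rw [mem_sdiff] at ha'
            rcases Finset.mem_union.mp ha with ha | ha
            · exact (Finset.disjoint_left.mp hPT) ha ha'.1
            · exact ha'.2 ha
          · rw [Finset.card_union_of_disjoint, hP, hCn]
            · ring
            · rw [Finset.disjoint_left]
              exact hPC
          · intro a ha
            rcases Finset.mem_union.mp ha with ha | ha
            · rw [hy₁P a ha]
              have := hy a ha
              omega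
            · rw [hy₁C a ha]
              simp
          · exact hcnt'
        rw [← hQ]
        unfold agr QQ
        simp only [hψ]
        rw [← Finset.sum_filter, Finset.filter_filter]
        unfold QQ
        rw [← Finset.sum_congr rfl (fun x (_ : x ∈ (Finset.univ.filter fun x : L → Fin n =>
          (∀ a ∈ T \ C, x a = c' a) ∧ InjP (P ∪ C) x y₁)) =>
            Finset.sum_singleton (fun _ : L → Fin n => φ x) (fun a => if a ∈ C then x a else c' a))]
        apply Finset.sum_comm'
        intro c'' x
        simp only [mem_filter, mem_univ, true_and, mem_singleton]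
        constructor
        · rintro ⟨⟨h1, h2⟩, h3, h4⟩
          have hcC : ∀ i, cnt C x i = 1 := by
            intro i
            have e1 := cnt_sdiff hC c'' i
            have e2 : cnt (T \ C) c'' i = cnt (T \ C) c' i :=
              cnt_congr (fun a ha => h1 a (mem_sdiff.mp ha).2) i
            have e3 : cnt C c'' i = cnt C x i := cnt_congr (fun a ha => (h3 a (hC ha)).symm) i
            have e4 := h2 i
            have e5 := hcnt' i
            omega
          refine ⟨?_, ?_, ?_⟩
          · funext a
            by_cases ha : a ∈ C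
            · rw [if_pos ha, h3 a (hC ha)]
            · rw [if_neg ha, h1 a ha]
          · intro a ha
            rw [mem_sdiff] at ha
            rw [h3 a ha.1, h1 a ha.2]
          · intro a ha b hb hx' hy'
            rcases Finset.mem_union.mp ha with ha | ha <;>
              rcases Finset.mem_union.mp hb with hb | hb
            · rw [hy₁P a ha, hy₁P b hb] at hy'
              exact h4 a ha b hb hx' hy'
            · exfalso
              rw [hy₁P a ha, hy₁C b hb] at hy'
              have := hy a ha
              rw [hy'] at this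
              simp at this
            · exfalso
              rw [hy₁P b hb, hy₁C a ha] at hy'
              have := hy b hb
              rw [← hy'] at this
              simp at this
            · have e := hcC (x a)
              unfold cnt at e
              rw [Finset.card_eq_one] at e
              obtain ⟨z, hz⟩ := e
              have ea : a ∈ C.filter fun b => x b = x a := mem_filter.mpr ⟨ha, rfl⟩
              have eb : b ∈ C.filter fun b => x b = x a := mem_filter.mpr ⟨hb, hx'.symm⟩
              rw [hz, mem_singleton] at ea eb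
              rw [ea, eb]
        · rintro ⟨rfl, h1, h2⟩
          have hcC : ∀ i, cnt C x i = 1 := by
            intro i
            apply cnt_of_InjP (P := C) (g := 1) (d := 1) (y := fun _ => 0) (by rw [hCn, mul_one])
            · intro a _
              simp
            · intro a ha b hb hx' _
              exact h2 a (Finset.mem_union_right _ ha) b (Finset.mem_union_right _ hb) hx'
                (by rw [hy₁C a ha, hy₁C b hb])
          refine ⟨⟨fun a ha => by simp [ha], fun i => ?_⟩, fun a ha => ?_, ?_⟩
          · have e1 := cnt_sdiff hC (fun a => if a ∈ C then x a else c' a) i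
            have e2 : cnt (T \ C) (fun a => if a ∈ C then x a else c' a) i = cnt (T \ C) c' i :=
              cnt_congr (fun a ha => if_neg (mem_sdiff.mp ha).2) i
            have e3 : cnt C (fun a => if a ∈ C then x a else c' a) i = cnt C x i :=
              cnt_congr (fun a ha => if_pos ha) i
            have e4 := hcC i
            have e5 := hcnt' i
            omega
          · by_cases haC : a ∈ C
            · simp [haC]
            · simp only [haC, if_false]
              exact h1 a (mem_sdiff.mpr ⟨ha, haC⟩)
          · exact InjP.congr (fun _ _ => rfl) hy₁P (InjP.mono Finset.subset_union_left h2)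
    have := hJ c
    simp only [hψ] at this
    rwa [if_pos hc] at this

/-- The main theorem in terms of maps. -/
theorem core (hL : Fintype.card L = n * d) (φ : (L → Fin n) → K)
    (hsym : ∀ (σ : Equiv.Perm (Fin n)) (x : L → Fin n), φ (σ ∘ x) = φ x)
    (hsupp : ∀ x, φ x ≠ 0 → ∀ i, cnt Finset.univ x i = d)
    (hFN : ∀ y : L → Fin d, ∑ x : L → Fin n with InjP Finset.univ x y, φ x = 0)
    (E : ℕ) (hEd : E ≤ d) (hE : ∀ i : Fin n, (i : ℕ) ≤ E)
    (hW : ∑ i : Fin n, (i : ℕ) ≤ E + 1) (hb : ∑ i : Fin n, (E - (i : ℕ)) ≤ d) :
    ∀ x, φ x = 0 := by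
  classical
  obtain ⟨y₀⟩ : Nonempty (L → Fin d) := by
    rcases Nat.eq_zero_or_pos d with h | h
    · subst h
      have : IsEmpty L := Fintype.card_eq_zero_iff.mp (by rw [hL, mul_zero])
      exact ⟨fun a => isEmptyElim a⟩
    · exact ⟨fun _ => ⟨0, h⟩⟩
  apply Jlem φ Finset.univ (fun _ => d) (fun i => E - i) hsupp
  · intro i
    refine le_trans (Finset.sum_le_sum_of_subset (Finset.filter_subset _ _)) hb
  · intro Z _ c _ hc
    have h := core_aux φ hsym hsupp hFN E (d - E) (by omega) hE hW (d - E) le_rfl ∅
      (Finset.univ \ Z) y₀ c (Finset.disjoint_empty_left _) (by simp) (by simp)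
      (by intro i; have := hc i; omega)
    rw [← h]
    unfold agr QQ
    apply Finset.sum_congr _ (fun _ _ => rfl)
    apply Finset.filter_congr
    intro x _
    constructor
    · intro hx
      refine ⟨fun a ha => hx a (mem_sdiff.mp ha).2, ?_⟩
      intro a ha
      simp at ha
    · rintro ⟨hx, _⟩ a ha
      exact hx a (by simp [ha])

end Pool.Agent.Lib.MP_2e09cc_al
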