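import Mathlib

/-!
The permutation modules of the symmetric group on the partitions of a set in blocks of equal size.
-/

set_option autoImplicit false

namespace Pool.Agent.Lib.MP_2e09cc_al

/-- The partitions of `{1, …, N}` (equivalence relations) all of whose blocks have `k` elements. -/
def Blocks (N k : ℕ) : Type := {s : Setoid (Fin N) // ∀ a, Nat.card {b // s a b} = k}

instance (N k : ℕ) : Finite (Blocks N k) := by
  unfold Blocks
  have : Finite (Setoid (Fin N)) :=
    Finite.of_injective (fun s : Setoid (Fin N) => fun a b => s a b) (by
      intro s t h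
      ext a b
      exact iff_of_eq (congrFun (congrFun h a) b))
  infer_instance

noncomputable instance (N k : ℕ) : Fintype (Blocks N k) := Fintype.ofFinite _

/-- A permutation `g` maps the partition with `a ∼ b` to the partition with `g a ∼ g b`. -/
instance (N k : ℕ) : MulAction (Equiv.Perm (Fin N)) (Blocks N k) where
  smul g s := ⟨Setoid.comap (g⁻¹ : Equiv.Perm (Fin N)) s.1, fun a =>
    (Nat.card_congr ((g⁻¹ : Equiv.Perm (Fin N)).subtypeEquiv fun _ => Iff.rfl)).trans
      (s.2 (g⁻¹ a))⟩
  one_smul s := by
    apply Subtype.ext
    ext a b
    exact Iff.rfl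
  mul_smul g h s := by
    apply Subtype.ext
    ext a b
    show s.1 ((g * h)⁻¹ a) ((g * h)⁻¹ b) ↔ s.1 (h⁻¹ (g⁻¹ a)) (h⁻¹ (g⁻¹ b))
    rw [mul_inv_rev]
    rfl

/-- The permutation module of the symmetric group on the partitions of `{1, …, N}` in blocks of size
`k`: the space of complex functions on the set of these partitions, with `(g f) (s) = f (g⁻¹ s)`. -/
def permModule (N k : ℕ) : Representation ℂ (Equiv.Perm (Fin N)) (Blocks N k → ℂ) where
  toFun g := LinearMap.funLeft ℂ ℂ fun s => g⁻¹ • s
  map_one' := by
    apply LinearMap.ext
    intro f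
    funext s
    show f ((1 : Equiv.Perm (Fin N))⁻¹ • s) = f s
    rw [inv_one, one_smul]
  map_mul' g h := by
    apply LinearMap.ext
    intro f
    funext s
    show f ((g * h)⁻¹ • s) = f (h⁻¹ • g⁻¹ • s)
    rw [mul_inv_rev, mul_smul]

open Classical in
/-- The transversal map: it maps the partition `s` in blocks of size `l` (a basis vector) to the sum of
the partitions `t` in blocks of size `k` which are transversal to `s`, that is, no two elements are
both in one block of `s` and in one block of `t`. -/
noncomputable def transversal (N l k : ℕ) : (Blocks N l → ℂ) →ₗ[ℂ] (Blocks N k → ℂ) where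
  toFun f t := ∑ s : Blocks N l, if s.1 ⊓ t.1 = ⊥ then f s else 0
  map_add' f g := by
    funext t
    simp only [Pi.add_apply, ← Finset.sum_add_distrib]
    apply Finset.sum_congr rfl
    intro s _
    split_ifs <;> simp
  map_smul' c f := by
    funext t
    simp only [Pi.smul_apply, smul_eq_mul, RingHom.id_apply, Finset.mul_sum]
    apply Finset.sum_congr rfl
    intro s _
    split_ifs <;> simp

/-- The multiplicity of the irreducible representation `ρ` in the representation `σ`: the dimension
of the space of the homomorphisms from `ρ` to `σ`. -/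
noncomputable def mult {G V W : Type} [Group G] [AddCommGroup V] [Module ℂ V] [AddCommGroup W]
    [Module ℂ W] (ρ : Representation ℂ G V) (σ : Representation ℂ G W) : ℕ :=
  Module.finrank ℂ (ρ.IntertwiningMap σ)

end Pool.Agent.Lib.MP_2e09cc_al
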