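import Mathlib
import Pool.Agent.Lib.MP_2e09cc_al.Core
import Pool.Agent.Lib.MP_2e09cc_al.Defs

/-!
From maps to partitions: injectivity of the transversal map and Foulkes' inequality.
-/

set_option autoImplicit false

namespace Pool.Agent.Lib.MP_2e09cc_al

open Finset

section maps

variable {n d : ℕ}

theorem natcard_ker (x : Fin (d * n) → Fin n) (a : Fin (d * n)) :
    Nat.card {b // Setoid.ker x a b} = cnt Finset.univ x (x a) := by
  classical
  rw [Nat.card_eq_fintype_card, Fintype.card_subtype]
  unfold cnt
  congr 1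
  ext b
  simp only [mem_filter, mem_univ, true_and, Setoid.ker_def]
  exact eq_comm

/-- The partition into the fibres of a balanced map. -/
def toB (x : Fin (d * n) → Fin n) (h : ∀ i, cnt Finset.univ x i = d) : Blocks (d * n) d :=
  ⟨Setoid.ker x, fun a => by rw [natcard_ker, h]⟩

theorem exists_map (hd : 0 < d) (s : Blocks (d * n) d) :
    ∃ x : Fin (d * n) → Fin n, (∀ i, cnt Finset.univ x i = d) ∧ Setoid.ker x = s.1 := by
  classical
  have hfin : Finite (Quotient s.1) := inferInstance
  let _ : Fintype (Quotient s.1) := Fintype.ofFinite _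
  have hfib : ∀ q : Quotient s.1,
      (Finset.univ.filter fun b : Fin (d * n) => (Quotient.mk s.1 b) = q).card = d := by
    intro q
    induction q using Quotient.inductionOn with
    | _ a =>
      refine Eq.trans ?_ (s.2 a)
      rw [Nat.card_eq_fintype_card, Fintype.card_subtype]
      congr 1
      ext b
      simp only [mem_filter, mem_univ, true_and]
      rw [Quotient.eq]
      exact ⟨fun h => s.1.symm h, fun h => s.1.symm h⟩
  have hcard : Fintype.card (Quotient s.1) = n := by
    have h1 := Finset.card_eq_sum_card_fiberwise (s := (Finset.univ : Finset (Fin (d * n))))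
      (f := fun b => Quotient.mk s.1 b) (t := Finset.univ) (fun _ _ => Finset.mem_univ _)
    rw [Finset.sum_congr rfl (fun q _ => hfib q), Finset.sum_const, smul_eq_mul,
      Finset.card_univ, Finset.card_univ, Fintype.card_fin] at h1
    exact Nat.eq_of_mul_eq_mul_right hd (h1.symm.trans (mul_comm d n))
  let e : Quotient s.1 ≃ Fin n := Fintype.equivFinOfCardEq hcard
  refine ⟨fun a => e (Quotient.mk s.1 a), fun i => ?_, ?_⟩
  · refine Eq.trans ?_ (hfib (e.symm i))
    unfold cnt
    congr 1
    ext b
    simp only [mem_filter, mem_univ, true_and]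
    exact ⟨fun h => by rw [← h, Equiv.symm_apply_apply], fun h => by rw [h, Equiv.apply_symm_apply]⟩
  · ext a b
    rw [Setoid.ker_def, e.injective.eq_iff, Quotient.eq]

theorem surj_of_balanced (hd : 0 < d) (x : Fin (d * n) → Fin n)
    (h : ∀ i, cnt Finset.univ x i = d) : Function.Surjective x := by
  intro i
  have h1 : 0 < cnt Finset.univ x i := by rw [h]; exact hd
  unfold cnt at h1
  obtain ⟨a, ha⟩ := Finset.card_pos.mp h1
  exact ⟨a, (Finset.mem_filter.mp ha).2⟩

open Classical in
theorem card_maps (hd : 0 < d) (s : Blocks (d * n) d) :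
    (Finset.univ.filter fun x : Fin (d * n) → Fin n =>
      (∀ i, cnt Finset.univ x i = d) ∧ Setoid.ker x = s.1).card = n.factorial := by
  classical
  obtain ⟨x₀, hb₀, hk₀⟩ := exists_map hd s
  have hs₀ := surj_of_balanced hd x₀ hb₀
  have hperm : (Finset.univ : Finset (Equiv.Perm (Fin n))).card = n.factorial := by
    rw [Finset.card_univ, Fintype.card_perm, Fintype.card_fin]
  rw [← hperm]
  symm
  apply Finset.card_bij (fun (σ : Equiv.Perm (Fin n)) _ => (σ ∘ x₀ : Fin (d * n) → Fin n))
  · intro σ _
    rw [mem_filter]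
    refine ⟨mem_univ _, fun i => ?_, ?_⟩
    · refine Eq.trans ?_ (hb₀ (σ.symm i))
      unfold cnt
      congr 1
      ext a
      simp [Equiv.eq_symm_apply]
    · rw [← hk₀]
      ext a b
      simp [Setoid.ker_def]
  · intro σ _ τ _ h
    ext i
    obtain ⟨a, rfl⟩ := hs₀ i
    exact congrArg Fin.val (congrFun h a)
  · intro x hx
    rw [mem_filter] at hx
    obtain ⟨_, hb, hk⟩ := hx
    have hs := surj_of_balanced hd x hb
    have hiff : ∀ a b, x₀ a = x₀ b ↔ x a = x b := by
      intro a b
      rw [← Setoid.ker_def (f := x₀), ← Setoid.ker_def (f := x), hk₀, hk]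
    let f : Fin n → Fin n := fun v => x (Function.surjInv hs₀ v)
    have hf : ∀ a, f (x₀ a) = x a := by
      intro a
      exact (hiff _ _).mp (Function.surjInv_eq hs₀ (x₀ a))
    have hfb : Function.Bijective f := by
      constructor
      · intro v w h
        obtain ⟨a, rfl⟩ := hs₀ v
        obtain ⟨b, rfl⟩ := hs₀ w
        rw [hf, hf] at h
        exact (hiff a b).mpr h
      · intro v
        obtain ⟨a, rfl⟩ := hs v
        exact ⟨x₀ a, hf a⟩
    refine ⟨Equiv.ofBijective f hfb, mem_univ _, ?_⟩
    funext a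
    exact hf a

/-- A map transversal to a balanced map has fibres of size `n`. -/
theorem natcard_ker_of_inj (x : Fin (d * n) → Fin n) (y : Fin (d * n) → Fin d)
    (h : InjP Finset.univ x y) (a : Fin (d * n)) : Nat.card {b // Setoid.ker y a b} = n := by
  classical
  have hinj : Function.Injective (fun b : Fin (d * n) => (x b, y b)) := by
    intro b c hbc
    rw [Prod.mk.injEq] at hbc
    exact h b (mem_univ _) c (mem_univ _) hbc.1 hbc.2
  have hbij : Function.Bijective (fun b : Fin (d * n) => (x b, y b)) := by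
    rw [Fintype.bijective_iff_injective_and_card]
    refine ⟨hinj, ?_⟩
    rw [Fintype.card_fin, Fintype.card_prod, Fintype.card_fin, Fintype.card_fin, mul_comm]
  have e : {b // Setoid.ker y a b} ≃ Fin n := by
    refine Equiv.ofBijective (fun b => x b.1) ⟨?_, ?_⟩
    · intro b c hbc
      apply Subtype.ext
      apply hinj
      have h1 : y a = y b.1 := b.2
      have h2 : y a = y c.1 := c.2
      exact Prod.ext hbc (h1.symm.trans h2)
    · intro i
      obtain ⟨b, hb⟩ := hbij.2 (i, y a)
      rw [Prod.mk.injEq] at hb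
      exact ⟨⟨b, hb.2.symm⟩, hb.1⟩
  rw [Nat.card_congr e, Nat.card_eq_fintype_card, Fintype.card_fin]

theorem injP_iff (x : Fin (d * n) → Fin n) (y : Fin (d * n) → Fin d) :
    InjP Finset.univ x y ↔ Setoid.ker x ⊓ Setoid.ker y = ⊥ := by
  constructor
  · intro h
    ext a b
    rw [Setoid.inf_def]
    simp only [Pi.inf_apply, Setoid.ker_def, inf_Prop_eq]
    exact ⟨fun hab => h a (mem_univ _) b (mem_univ _) hab.1 hab.2, fun hab => by
      have : a = b := hab
      rw [this]; simp⟩
  · intro h a _ b _ h1 h2
    have : (Setoid.ker x ⊓ Setoid.ker y) a b := ⟨h1, h2⟩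
    rw [h] at this
    exact this

open Classical in
theorem transversal_injective_aux (hd : 0 < d) (E : ℕ) (hEd : E ≤ d) (hE : ∀ i : Fin n, (i : ℕ) ≤ E)
    (hW : ∑ i : Fin n, (i : ℕ) ≤ E + 1) (hb : ∑ i : Fin n, (E - (i : ℕ)) ≤ d) :
    Function.Injective (transversal (d * n) d n) := by
  rw [injective_iff_map_eq_zero]
  intro f hf
  set φ : (Fin (d * n) → Fin n) → ℂ := fun x =>
    if h : ∀ i, cnt Finset.univ x i = d then f (toB x h) else 0 with hφ
  have hφb : ∀ x (h : ∀ i, cnt Finset.univ x i = d), φ x = f (toB x h) := by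
    intro x h
    simp only [hφ, dif_pos h]
  have hφn : ∀ x, ¬ (∀ i, cnt Finset.univ x i = d) → φ x = 0 := by
    intro x h
    simp only [hφ, dif_neg h]
  have hcore : ∀ x, φ x = 0 := by
    apply core (L := Fin (d * n)) (n := n) (d := d) (by rw [Fintype.card_fin, mul_comm]) φ _ _ _
      E hEd hE hW hb
    · intro σ x
      have hc : ∀ i, cnt Finset.univ (σ ∘ x) i = cnt Finset.univ x (σ.symm i) := by
        intro i
        unfold cnt
        congr 1
        ext a
        simp [Equiv.eq_symm_apply]
      by_cases h : ∀ i, cnt Finset.univ x i = d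
      · have h' : ∀ i, cnt Finset.univ (σ ∘ x) i = d := fun i => by rw [hc, h]
        rw [hφb x h, hφb _ h']
        congr 1
        apply Subtype.ext
        show Setoid.ker (σ ∘ x) = Setoid.ker x
        ext a b
        simp [Setoid.ker_def]
      · rw [hφn x h, hφn]
        intro h'
        apply h
        intro i
        have := h' (σ i)
        rwa [hc, Equiv.symm_apply_apply] at this
    · intro x hx
      by_contra h
      exact hx (hφn x h)
    · intro y
      by_cases hex : ∃ x : Fin (d * n) → Fin n, InjP Finset.univ x y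
      · obtain ⟨x₀, hx₀⟩ := hex
        set t : Blocks (d * n) n := ⟨Setoid.ker y, natcard_ker_of_inj x₀ y hx₀⟩ with ht
        have h1 : (n.factorial : ℂ) * transversal (d * n) d n f t = 0 := by
          rw [hf]; simp
        rw [← h1]
        show _ = (n.factorial : ℂ) * ∑ s : Blocks (d * n) d, if s.1 ⊓ t.1 = ⊥ then f s else 0
        rw [Finset.mul_sum]
        have h2 : ∑ x : Fin (d * n) → Fin n with InjP Finset.univ x y, φ x
            = ∑ x : Fin (d * n) → Fin n with (∀ i, cnt Finset.univ x i = d),
              if InjP Finset.univ x y then φ x else 0 := by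
          rw [Finset.sum_filter, Finset.sum_filter]
          apply Finset.sum_congr rfl
          intro x _
          by_cases h : ∀ i, cnt Finset.univ x i = d
          · rw [if_pos h]
          · rw [if_neg h, hφn x h, ite_self]
        rw [h2]
        have h3 : ∀ s : Blocks (d * n) d,
            (n.factorial : ℂ) * (if s.1 ⊓ t.1 = ⊥ then f s else 0)
            = ∑ x : Fin (d * n) → Fin n with (∀ i, cnt Finset.univ x i = d) ∧ Setoid.ker x = s.1,
              if InjP Finset.univ x y then φ x else 0 := by
          intro s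
          rw [← card_maps hd s, ← nsmul_eq_mul, ← Finset.sum_const]
          apply Finset.sum_congr rfl
          intro x hx
          rw [mem_filter] at hx
          obtain ⟨_, hb', hk⟩ := hx
          have e1 : toB x hb' = s := Subtype.ext hk
          rw [hφb x hb', e1]
          apply if_congr _ rfl rfl
          rw [injP_iff, hk]
        simp only [h3]
        symm
        rw [← Finset.sum_biUnion]
        · apply Finset.sum_congr _ (fun _ _ => rfl)
          ext x
          simp only [mem_biUnion, mem_univ, true_and, mem_filter]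
          constructor
          · rintro ⟨s, h, _⟩; exact h
          · intro h; exact ⟨toB x h, h, rfl⟩
        · intro s _ s' _ hss
          rw [Function.onFun, Finset.disjoint_left]
          intro x hx hx'
          rw [mem_filter] at hx hx'
          exact hss (Subtype.ext (hx.2.2.symm.trans hx'.2.2))
      · apply Finset.sum_eq_zero
        intro x hx
        exact absurd ⟨x, (mem_filter.mp hx).2⟩ hex
  funext s
  obtain ⟨x, hb', hk⟩ := exists_map hd s
  have := hcore x
  rw [hφb x hb'] at this
  rw [Pi.zero_apply, ← this]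
  congr 1
  exact Subtype.ext hk.symm

end maps

theorem sum_fin_val (n : ℕ) : 2 * ∑ i : Fin n, (i : ℕ) = n * (n - 1) := by
  rw [Fin.sum_univ_eq_sum_range (fun i => i) n, mul_comm]
  exact Finset.sum_range_id_mul_two n

theorem exists_E (n d : ℕ) (hn : 0 < n) (hd : 0 < d) (h : n * (n - 1) ^ 2 ≤ 2 * (d + n)) :
    ∃ E : ℕ, E ≤ d ∧ (∀ i : Fin n, (i : ℕ) ≤ E) ∧ (∑ i : Fin n, (i : ℕ) ≤ E + 1) ∧
      ∑ i : Fin n, (E - (i : ℕ)) ≤ d := by
  set W := ∑ i : Fin n, (i : ℕ) with hW
  have h2W : 2 * W = n * (n - 1) := sum_fin_val n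
  have hsub : ∀ E : ℕ, (∀ i : Fin n, (i : ℕ) ≤ E) → ∑ i : Fin n, (E - (i : ℕ)) + W = n * E := by
    intro E hE
    rw [hW, ← Finset.sum_add_distrib]
    rw [Finset.sum_congr rfl (fun i _ => Nat.sub_add_cancel (hE i)), Finset.sum_const,
      Finset.card_univ, Fintype.card_fin, smul_eq_mul]
  rcases Nat.lt_or_ge n 3 with hn3 | hn3
  · interval_cases n
    · refine ⟨0, by omega, fun i => by omega, by omega, ?_⟩
      have := hsub 0 (fun i => by omega)
      omega
    · refine ⟨1, by omega, fun i => by omega, by omega, ?_⟩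
      have := hsub 1 (fun i => by omega)
      omega
  · obtain ⟨m, rfl⟩ : ∃ m, n = m + 3 := ⟨n - 3, by omega⟩
    have e1 : m + 3 - 1 = m + 2 := by omega
    rw [e1] at h2W h
    have hWn : m + 3 ≤ W := by nlinarith
    have hE : ∀ i : Fin (m + 3), (i : ℕ) ≤ W - 1 := fun i => by omega
    have h3 := hsub (W - 1) hE
    obtain ⟨w, hw⟩ : ∃ w, W = w + 1 := ⟨W - 1, by omega⟩
    rw [hw] at h2W h3 hWn hE ⊢
    simp only [Nat.add_sub_cancel] at h3 hE
    have h4 : (w + 1) * (m + 2) ≤ d + (m + 3) := by
      have : (m + 3) * (m + 2) ^ 2 = 2 * ((w + 1) * (m + 2)) := by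
        calc (m + 3) * (m + 2) ^ 2 = ((m + 3) * (m + 2)) * (m + 2) := by ring
          _ = (2 * (w + 1)) * (m + 2) := by rw [h2W]
          _ = _ := by ring
      omega
    refine ⟨w, by nlinarith, hE, le_rfl, ?_⟩
    have h5 : ∑ i : Fin (m + 3), (w - (i : ℕ)) + (w + 1) = (m + 3) * w := h3
    nlinarith

theorem transversal_injective (n d : ℕ) (hn : 0 < n) (hd : 0 < d)
    (h : n * (n - 1) ^ 2 ≤ 2 * (d + n)) : Function.Injective (transversal (d * n) d n) := by
  obtain ⟨E, h1, h2, h3, h4⟩ := exists_E n d hn hd h
  exact transversal_injective_aux hd E h1 h2 h3 h4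

open Classical in
theorem transversal_equivariant (N l k : ℕ) (g : Equiv.Perm (Fin N)) (f : Blocks N l → ℂ) :
    transversal N l k (permModule N l g f) = permModule N k g (transversal N l k f) := by
  funext t
  show (∑ s : Blocks N l, if s.1 ⊓ t.1 = ⊥ then f (g⁻¹ • s) else 0)
    = ∑ s : Blocks N l, if s.1 ⊓ (g⁻¹ • t).1 = ⊥ then f s else 0
  apply Fintype.sum_equiv (MulAction.toPerm (g⁻¹ : Equiv.Perm (Fin N)))
  intro s
  show _ = if (g⁻¹ • s).1 ⊓ (g⁻¹ • t).1 = ⊥ then f (g⁻¹ • s) else 0
  apply if_congr _ rfl rfl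
  have key : ∀ a b : Fin N, ((g⁻¹ • s).1 ⊓ (g⁻¹ • t).1) a b
      ↔ (s.1 ⊓ t.1) ((g⁻¹)⁻¹ a) ((g⁻¹)⁻¹ b) := fun a b => Iff.rfl
  constructor
  · intro h
    ext a b
    rw [key, h]
    simp
  · intro h
    ext a b
    have h1 := key (g⁻¹ a) (g⁻¹ b)
    rw [h] at h1
    rw [inv_inv] at h1
    have e1 : g (g⁻¹ a) = a := g.apply_symm_apply a
    have e2 : g (g⁻¹ b) = b := g.apply_symm_apply b
    rw [e1, e2] at h1
    rw [← h1]
    show (g⁻¹ a = g⁻¹ b) ↔ (a = b)
    exact (g⁻¹ : Equiv.Perm (Fin N)).injective.eq_iff

theorem mult_le (N l k : ℕ) (hinj : Function.Injective (transversal N l k)) {V : Type}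
    [AddCommGroup V] [Module ℂ V] [FiniteDimensional ℂ V]
    (ρ : Representation ℂ (Equiv.Perm (Fin N)) V) :
    mult ρ (permModule N l) ≤ mult ρ (permModule N k) := by
  let T : (permModule N l).IntertwiningMap (permModule N k) :=
    { transversal N l k with
      isIntertwining' := fun g => LinearMap.ext fun f => transversal_equivariant N l k g f }
  let F : (ρ.IntertwiningMap (permModule N l)) →ₗ[ℂ] (ρ.IntertwiningMap (permModule N k)) :=
    { toFun := fun u => T.comp u
      map_add' := fun u v => Representation.IntertwiningMap.ext (by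
        apply LinearMap.ext; intro x
        exact map_add (transversal N l k) (u x) (v x))
      map_smul' := fun c u => Representation.IntertwiningMap.ext (by
        apply LinearMap.ext; intro x
        exact map_smul (transversal N l k) c (u x)) }
  unfold mult
  apply LinearMap.finrank_le_finrank_of_injective (f := F)
  intro u v huv
  apply Representation.IntertwiningMap.ext
  apply LinearMap.ext
  intro x
  apply hinj
  exact congrArg (fun w : ρ.IntertwiningMap (permModule N k) => w x) huv

end Pool.Agent.Lib.MP_2e09cc_al
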